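import Pool.Agent.H91.RF.TargetsF

/-!
# [LCPT] compactness of normalised solutions of linear equations (MP_609556_an)
-/

set_option autoImplicit false

open MeasureTheory Set Filter Topology Metric
open Pool.Agent.H29.TF (hk P hk_pos hk_nonneg hk_le continuous_hk integrable_hk integrable_hk_sub)
open Pool.Agent.H91.RD Pool.Agent.H91.RF

namespace Pool.Agent.H95.RF.LCPT

/-! ### Compactness -/

/-- extraction of a locally uniformly convergent subsequence -/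
theorem aa {X : Type*} [PseudoMetricSpace X] [SecondCountableTopology X] {Ω : Set X}
    (hne : Ω.Nonempty) (F : ℕ → X → ℝ)
    (hb : ∀ p ∈ Ω, ∃ B, ∀ᶠ n in atTop, |F n p| ≤ B)
    (he : ∀ p ∈ Ω, ∀ ε > 0, ∃ U ∈ 𝓝 p, ∀ᶠ n in atTop, ∀ q ∈ U, |F n q - F n p| ≤ ε) :
    ∃ (σ : ℕ → ℕ) (ζ : X → ℝ), StrictMono σ ∧ ContinuousOn ζ Ω ∧
      TendstoLocallyUniformlyOn (fun n => F (σ n)) ζ atTop Ω := by
  have : Nonempty Ω := hne.to_subtype
  let Q : ℕ → Ω := TopologicalSpace.denseSeq Ω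
  have hQ : DenseRange Q := TopologicalSpace.denseRange_denseSeq Ω
  choose B hB using fun i => hb (Q i).1 (Q i).2
  have hle : ∀ i, -|B i| ≤ |B i| := fun i => by linarith [abs_nonneg (B i)]
  let g : ℕ → ∀ i : ℕ, Icc (-|B i|) |B i| := fun n i => projIcc (-|B i|) |B i| (hle i) (F n (Q i))
  obtain ⟨l, σ, hσ, hl⟩ := CompactSpace.tendsto_subseq g
  have hσt : Tendsto σ atTop atTop := hσ.tendsto_atTop
  have hl' : ∀ i, Tendsto (fun n => F (σ n) (Q i)) atTop (𝓝 (l i : ℝ)) := by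
    intro i
    have h1 := (tendsto_pi_nhds.1 hl) i
    have h2 : Tendsto (fun n => ((g (σ n) i : Icc (-|B i|) |B i|) : ℝ)) atTop (𝓝 (l i : ℝ)) :=
      (continuous_subtype_val.tendsto _).comp h1
    refine h2.congr' ?_
    filter_upwards [hσt.eventually (hB i)] with n hn
    have h3 : F (σ n) (Q i) ∈ Icc (-|B i|) |B i| := by
      have := hn.trans (le_abs_self (B i))
      rw [abs_le] at this
      exact this
    simp only [g]
    rw [projIcc_of_mem _ h3]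
  have he' : ∀ p ∈ Ω, ∀ ε > 0, ∃ U ∈ 𝓝 p, ∀ᶠ n in atTop, ∀ q ∈ U,
      |F (σ n) q - F (σ n) p| ≤ ε := by
    intro p hp ε hε
    obtain ⟨U, hU, h⟩ := he p hp ε hε
    exact ⟨U, hU, hσt.eventually h⟩
  -- pointwise convergence
  have hpt : ∀ p, ∃ y, p ∈ Ω → Tendsto (fun n => F (σ n) p) atTop (𝓝 y) := by
    intro p
    by_cases hp : p ∈ Ω
    swap
    · exact ⟨0, fun h => absurd h hp⟩
    have hc : CauchySeq (fun n => F (σ n) p) := by
      rw [Metric.cauchySeq_iff']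
      intro ε hε
      obtain ⟨U, hU, h⟩ := he' p hp (ε / 8) (by positivity)
      obtain ⟨O, hOU, hO, hpO⟩ := _root_.mem_nhds_iff.1 hU
      obtain ⟨i, hi⟩ := hQ.exists_mem_open (hO.preimage continuous_subtype_val)
        ⟨⟨p, hp⟩, hpO⟩
      have hi' : (Q i : X) ∈ U := hOU hi
      obtain ⟨n1, hn1⟩ := (Metric.tendsto_atTop.1 (hl' i)) (ε / 8) (by positivity)
      obtain ⟨n2, hn2⟩ := eventually_atTop.1 h
      refine ⟨max n1 n2, fun n hn => ?_⟩
      have k1 := hn1 n (le_trans (le_max_left _ _) hn)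
      have k2 := hn1 (max n1 n2) (le_max_left _ _)
      have k3 := hn2 n (le_trans (le_max_right _ _) hn) _ hi'
      have k4 := hn2 (max n1 n2) (le_max_right _ _) _ hi'
      rw [Real.dist_eq] at *
      rw [abs_lt] at *
      rw [abs_le] at *
      constructor <;> linarith [k1.1, k1.2, k2.1, k2.2, k3.1, k3.2, k4.1, k4.2]
    obtain ⟨y, hy⟩ := cauchySeq_tendsto_of_complete hc
    exact ⟨y, fun _ => hy⟩
  choose ζ hζ using hpt
  have hmod : ∀ p ∈ Ω, ∀ ε > 0, ∃ U ∈ 𝓝 p, ∀ q ∈ U ∩ Ω, |ζ q - ζ p| ≤ ε := by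
    intro p hp ε hε
    obtain ⟨U, hU, h⟩ := he' p hp ε hε
    refine ⟨U, hU, fun q hq => ?_⟩
    refine le_of_tendsto ((hζ q hq.2).sub (hζ p hp)).abs ?_
    filter_upwards [h] with n hn
    exact hn q hq.1
  refine ⟨σ, ζ, hσ, ?_, ?_⟩
  · intro p hp
    rw [ContinuousWithinAt, Metric.tendsto_nhds]
    intro ε hε
    obtain ⟨U, hU, h⟩ := hmod p hp (ε / 2) (by positivity)
    filter_upwards [mem_nhdsWithin_of_mem_nhds hU, self_mem_nhdsWithin] with q hq hq2
    rw [Real.dist_eq]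
    have := h q ⟨hq, hq2⟩
    linarith
  · rw [Metric.tendstoLocallyUniformlyOn_iff]
    intro ε hε p hp
    obtain ⟨U, hU, h⟩ := hmod p hp (ε / 4) (by positivity)
    obtain ⟨U', hU', h'⟩ := he' p hp (ε / 4) (by positivity)
    refine ⟨U ∩ U' ∩ Ω, inter_mem (mem_nhdsWithin_of_mem_nhds (inter_mem hU hU'))
      self_mem_nhdsWithin, ?_⟩
    have h3 := Metric.tendsto_nhds.1 (hζ p hp) (ε / 4) (by positivity)
    filter_upwards [h', h3] with n k1 k2
    intro q hq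
    have k3 := k1 q hq.1.2
    have k4 := h q ⟨hq.1.1, hq.2⟩
    rw [Real.dist_eq] at *
    rw [abs_lt] at *
    rw [abs_le] at *
    constructor <;> linarith [k2.1, k2.2, k3.1, k3.2, k4.1, k4.2]

/-- Fatou -/
theorem fatou {α : Type*} [MeasurableSpace α] {μ : Measure α} {G : ℕ → α → ℝ} {f : α → ℝ} {B : ℝ}
    (hG : ∀ᶠ n in atTop, Integrable (G n) μ ∧ ∫ x, |G n x| ∂μ ≤ B)
    (hl : ∀ x, Tendsto (fun n => G n x) atTop (𝓝 (f x))) : Integrable f μ := by
  obtain ⟨n0, hn0⟩ := eventually_atTop.1 hG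
  have hl' : ∀ x, Tendsto (fun n => G (n + n0) x) atTop (𝓝 (f x)) := fun x =>
    (hl x).comp (tendsto_add_atTop_nat n0)
  have hm : ∀ n, AEStronglyMeasurable (G (n + n0)) μ := fun n =>
    (hn0 (n + n0) (by omega)).1.aestronglyMeasurable
  refine ⟨aestronglyMeasurable_of_tendsto_ae atTop hm (Eventually.of_forall hl'), ?_⟩
  have h1 : ∫⁻ x, ‖f x‖ₑ ∂μ ≤ liminf (fun n => ∫⁻ x, ‖G (n + n0) x‖ₑ ∂μ) atTop := by
    have h2 : ∫⁻ x, ‖f x‖ₑ ∂μ = ∫⁻ x, liminf (fun n => ‖G (n + n0) x‖ₑ) atTop ∂μ :=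
      lintegral_congr fun x => ((hl' x).enorm.liminf_eq).symm
    rw [h2]
    exact lintegral_liminf_le' fun n => (hm n).enorm
  refine lt_of_le_of_lt (h1.trans ?_) (ENNReal.ofReal_lt_top (r := B))
  refine liminf_le_of_le ?_ ?_
  · isBoundedDefault
  · intro b hb
    obtain ⟨n, hn⟩ := hb.exists
    refine hn.trans ?_
    have h3 := hn0 (n + n0) (by omega)
    rw [← ofReal_integral_norm_eq_lintegral_enorm h3.1]
    exact ENNReal.ofReal_le_ofReal h3.2

/-! ### Heat kernel estimates -/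

theorem titu {a R u v y : ℝ} (hu : 0 < u) (hv : 0 < v) (hy : 0 ≤ y) (hya : y ≤ a + R) :
    y ^ 2 / (u + v) ≤ a ^ 2 / u + R ^ 2 / v := by
  have h1 : y ^ 2 ≤ (a + R) ^ 2 := by nlinarith
  rw [div_le_iff₀ (by positivity)]
  have h2 : (a ^ 2 / u + R ^ 2 / v) * (u + v) =
      (a + R) ^ 2 + (a * v - R * u) ^ 2 / (u * v) := by
    field_simp
    ring
  rw [h2]
  have h3 : 0 ≤ (a * v - R * u) ^ 2 / (u * v) := by positivity
  linarith

variable {N : ℕ}

/-- the constant of `hk_wt` -/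
noncomputable def cst (N : ℕ) (S δ r R : ℝ) : ℝ :=
  (S / δ) ^ ((N : ℝ) / 2) * Real.exp (R ^ 2 / (4 * r))

theorem cst_nonneg {S δ r R : ℝ} (hS : 0 < S) (hδ : 0 < δ) : 0 ≤ cst N S δ r R := by
  unfold cst
  positivity

/-- the kernel with a shifted argument is bounded by the kernel at a larger time -/
theorem hk_wt {S δ r R τ : ℝ} (hδ : 0 < δ) (hr : 0 < r) (h1 : δ ≤ τ) (h2 : τ + r ≤ S)
    {x : E N} (hx : ‖x‖ ≤ R) (y : E N) :
    hk τ (x - y) ≤ cst N S δ r R * hk S y := by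
  have hτ : 0 < τ := hδ.trans_le h1
  have hS : 0 < S := by linarith
  have hfr : (Module.finrank ℝ (E N) : ℝ) = N := by simp
  unfold hk cst
  rw [hfr]
  have e1 : (4 * Real.pi * τ) ^ (-(N : ℝ) / 2) ≤ (4 * Real.pi * δ) ^ (-(N : ℝ) / 2) := by
    refine Real.rpow_le_rpow_of_nonpos (by positivity) ?_ ?_
    · exact mul_le_mul_of_nonneg_left h1 (by positivity)
    · have : (0 : ℝ) ≤ N := Nat.cast_nonneg N
      linarith
  have e2 : (4 * Real.pi * δ) ^ (-(N : ℝ) / 2) =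
      (S / δ) ^ ((N : ℝ) / 2) * (4 * Real.pi * S) ^ (-(N : ℝ) / 2) := by
    have e3 : 4 * Real.pi * δ = (4 * Real.pi * S) * (S / δ)⁻¹ := by field_simp
    rw [e3, Real.mul_rpow (by positivity) (by positivity), Real.inv_rpow (by positivity),
      ← Real.rpow_neg (by positivity), mul_comm]
    congr 2
    ring
  have e4 : Real.exp (-‖x - y‖ ^ 2 / (4 * τ)) ≤
      Real.exp (R ^ 2 / (4 * r)) * Real.exp (-‖y‖ ^ 2 / (4 * S)) := by
    rw [← Real.exp_add]
    refine Real.exp_le_exp.2 ?_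
    have hn : ‖y‖ ≤ ‖x - y‖ + R := by
      have : y = x - (x - y) := by abel
      calc ‖y‖ = ‖x - (x - y)‖ := by rw [← this]
        _ ≤ ‖x‖ + ‖x - y‖ := norm_sub_le _ _
        _ ≤ ‖x - y‖ + R := by linarith
    have k1 := titu hτ hr (norm_nonneg y) hn
    have k2 : ‖y‖ ^ 2 / S ≤ ‖y‖ ^ 2 / (τ + r) :=
      div_le_div_of_nonneg_left (by positivity) (by positivity) h2
    have k3 : ‖y‖ ^ 2 / S ≤ ‖x - y‖ ^ 2 / τ + R ^ 2 / r := k2.trans k1
    have k4 : -‖x - y‖ ^ 2 / (4 * τ) = -(‖x - y‖ ^ 2 / τ) / 4 := by field_simp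
    have k5 : R ^ 2 / (4 * r) = (R ^ 2 / r) / 4 := by field_simp
    have k6 : -‖y‖ ^ 2 / (4 * S) = -(‖y‖ ^ 2 / S) / 4 := by field_simp
    rw [k4, k5, k6]
    linarith
  calc (4 * Real.pi * τ) ^ (-(N : ℝ) / 2) * Real.exp (-‖x - y‖ ^ 2 / (4 * τ))
      ≤ ((S / δ) ^ ((N : ℝ) / 2) * (4 * Real.pi * S) ^ (-(N : ℝ) / 2)) *
        (Real.exp (R ^ 2 / (4 * r)) * Real.exp (-‖y‖ ^ 2 / (4 * S))) := by
        rw [← e2]
        exact mul_le_mul e1 e4 (Real.exp_nonneg _) (by positivity)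
    _ = _ := by ring

/-- weighted average -/
theorem int_wt {S δ r R τ : ℝ} (hδ : 0 < δ) (hr : 0 < r) (h1 : δ ≤ τ) (h2 : τ + r ≤ S)
    {x : E N} (hx : ‖x‖ ≤ R) {g : E N → ℝ} (hg : AEStronglyMeasurable g volume)
    (hM : ∃ M, ∀ y, |g y| ≤ M) {B : ℝ} (hB : ∫ y, hk S y * |g y| ≤ B) :
    Integrable (fun y => hk τ (x - y) * |g y|) ∧
      ∫ y, hk τ (x - y) * |g y| ≤ cst N S δ r R * B := by
  have hτ : 0 < τ := hδ.trans_le h1
  have hS : 0 < S := by linarith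
  obtain ⟨M, hM⟩ := hM
  have i1 : Integrable (fun y => hk τ (x - y) * |g y|) :=
    Pool.Agent.H29.TF.integrable_hk_mul hτ hg.norm (C := M) (fun y => by
      rw [Real.norm_eq_abs, abs_abs]
      exact hM y) x
  have i2 : Integrable (fun y => hk S y * |g y|) := by
    refine (integrable_hk hS).mul_bdd (c := M) hg.norm (Eventually.of_forall fun y => ?_)
    rw [Real.norm_eq_abs, abs_abs]
    exact hM y
  refine ⟨i1, ?_⟩
  have hc : 0 ≤ cst N S δ r R := cst_nonneg hS hδ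
  calc ∫ y, hk τ (x - y) * |g y| ≤ ∫ y, cst N S δ r R * (hk S y * |g y|) := by
        refine integral_mono i1 (i2.const_mul _) fun y => ?_
        show hk τ (x - y) * |g y| ≤ cst N S δ r R * (hk S y * |g y|)
        rw [← mul_assoc]
        exact mul_le_mul_of_nonneg_right (hk_wt hδ hr h1 h2 hx y) (abs_nonneg _)
    _ = cst N S δ r R * ∫ y, hk S y * |g y| := integral_const_mul _ _
    _ ≤ _ := mul_le_mul_of_nonneg_left hB hc

/-- integrability of a Gaussian against a slower growing Gaussian weight -/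
theorem gdom {θ ρ : ℝ} (hθ : 0 < θ) (hρ : θ < ρ) (x : E N) :
    Integrable (fun y : E N => hk θ (x - y) * Real.exp (‖y‖ ^ 2 / (4 * ρ))) := by
  have hρ0 : 0 < ρ := hθ.trans hρ
  set S1 : ℝ := (θ + ρ) / 2 with hS1
  have h1 : 0 < S1 := by positivity
  have h2 : 0 < ρ - S1 := by rw [hS1]; linarith
  have h3 : θ < S1 := by rw [hS1]; linarith
  set S2 : ℝ := S1 * ρ / (ρ - S1) with hS2
  have h4 : 0 < S2 := by positivity
  have i1 : Integrable (fun y : E N => cst N S1 θ (S1 - θ) ‖x‖ *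
      ((4 * Real.pi * S1) ^ (-(N : ℝ) / 2) * (4 * Real.pi * S2) ^ ((N : ℝ) / 2) * hk S2 y)) :=
    ((integrable_hk h4).const_mul _).const_mul _
  refine i1.mono' ?_ (Eventually.of_forall fun y => ?_)
  · refine Continuous.aestronglyMeasurable ?_
    have := continuous_hk (V := E N) θ
    fun_prop
  · rw [Real.norm_of_nonneg (mul_nonneg (hk_nonneg hθ.le _) (Real.exp_nonneg _))]
    have k1 := hk_wt (N := N) (S := S1) (δ := θ) (r := S1 - θ) (R := ‖x‖) (τ := θ) hθ (by linarith)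
      le_rfl (by linarith) (x := x) le_rfl y
    have k2 : hk S1 y * Real.exp (‖y‖ ^ 2 / (4 * ρ)) =
        (4 * Real.pi * S1) ^ (-(N : ℝ) / 2) * (4 * Real.pi * S2) ^ ((N : ℝ) / 2) * hk S2 y := by
      have hfr : (Module.finrank ℝ (E N) : ℝ) = N := by simp
      unfold hk
      rw [hfr]
      have e1 : (4 * Real.pi * S2) ^ ((N : ℝ) / 2) * (4 * Real.pi * S2) ^ (-(N : ℝ) / 2) = 1 := by
        rw [← Real.rpow_add (by positivity)]
        have : (N : ℝ) / 2 + -(N : ℝ) / 2 = 0 := by ring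
        rw [this, Real.rpow_zero]
      have e2 : Real.exp (-‖y‖ ^ 2 / (4 * S1)) * Real.exp (‖y‖ ^ 2 / (4 * ρ)) =
          Real.exp (-‖y‖ ^ 2 / (4 * S2)) := by
        rw [← Real.exp_add]
        congr 1
        rw [hS2]
        field_simp
        ring
      calc (4 * Real.pi * S1) ^ (-(N : ℝ) / 2) * Real.exp (-‖y‖ ^ 2 / (4 * S1)) *
            Real.exp (‖y‖ ^ 2 / (4 * ρ))
          = (4 * Real.pi * S1) ^ (-(N : ℝ) / 2) * (Real.exp (-‖y‖ ^ 2 / (4 * S1)) *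
            Real.exp (‖y‖ ^ 2 / (4 * ρ))) := by ring
        _ = (4 * Real.pi * S1) ^ (-(N : ℝ) / 2) *
            ((4 * Real.pi * S2) ^ ((N : ℝ) / 2) * (4 * Real.pi * S2) ^ (-(N : ℝ) / 2)) *
            Real.exp (-‖y‖ ^ 2 / (4 * S2)) := by rw [e2, e1]; ring
        _ = _ := by ring
    calc hk θ (x - y) * Real.exp (‖y‖ ^ 2 / (4 * ρ))
        ≤ (cst N S1 θ (S1 - θ) ‖x‖ * hk S1 y) * Real.exp (‖y‖ ^ 2 / (4 * ρ)) :=
          mul_le_mul_of_nonneg_right k1 (Real.exp_nonneg _)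
      _ = cst N S1 θ (S1 - θ) ‖x‖ * (hk S1 y * Real.exp (‖y‖ ^ 2 / (4 * ρ))) := by ring
      _ = _ := by rw [k2]

/-! ### The solutions -/

theorem slice_cont {V z : ℝ → E N → ℝ} {a b : ℝ} (h : LinD V a b z) {s : ℝ} (h1 : a < s)
    (h2 : s ≤ b) : Continuous (z s) := by
  rw [← continuousOn_univ]
  refine h.cont.comp (f := fun y : E N => (s, y)) (by fun_prop) ?_
  intro y _
  exact ⟨⟨h1, h2⟩, mem_univ _⟩

/-- pointwise bound by the representation formula -/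
theorem rep_le (hREP : T_KREP) (hKER : T_KER) {K a b : ℝ} {V z : ℝ → E N → ℝ} (hV : Pt K V)
    (hz : LinD V a b z) {s t : ℝ} (h1 : a < s) (h2 : s < t) (h3 : t ≤ b) (x : E N) :
    |z t x| ≤ Real.exp (K * (t - s)) * ∫ y, hk (t - s) (x - y) * |z s y| := by
  have hc := slice_cont hz h1 (h2.le.trans h3)
  obtain ⟨M, hM⟩ := hz.bdd
  rw [hREP N K a b V z hV hz s t h1.le h2 h3 x, ← integral_const_mul, ← Real.norm_eq_abs]
  refine norm_integral_le_of_norm_le ?_ (Eventually.of_forall fun y => ?_)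
  · refine Integrable.const_mul ?_ _
    refine Pool.Agent.H29.TF.integrable_hk_mul (by linarith) hc.abs.aestronglyMeasurable
      (C := M) (fun y => ?_) x
    rw [abs_abs]
    exact hM s ⟨h1.le, h2.le.trans h3⟩ y
  · have h4 := (hKER N K V hV).2.1 s t h2 x y
    have h5 : 0 ≤ gk V t x s y :=
      (mul_nonneg (Real.exp_nonneg _) (hk_nonneg (by linarith) _)).trans h4.1
    rw [norm_mul, Real.norm_of_nonneg h5, Real.norm_eq_abs, ← mul_assoc]
    exact mul_le_mul_of_nonneg_right h4.2 (abs_nonneg _)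

/-- growth of the solutions -/
theorem growth (hREP : T_KREP) (hKER : T_KER) {K a b : ℝ} {V z : ℝ → E N → ℝ} (hV : Pt K V)
    (hz : LinD V a b z) {S s δ B : ℝ} (h1 : a < -S) (hδ : 0 < δ) (h2 : δ ≤ s + S) (hs : s < 0)
    (h3 : s ≤ b) (hB : ∫ y, hk S y * |z (-S) y| ≤ B) (y : E N) :
    |z s y| ≤ Real.exp (K * (s + S)) * (S / δ) ^ ((N : ℝ) / 2) * B *
      Real.exp (‖y‖ ^ 2 / (4 * (-s))) := by
  have h4 : -S < s := by linarith
  have k1 := rep_le hREP hKER hV hz h1 h4 h3 y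
  rw [show s - -S = s + S by ring] at k1
  have hc := slice_cont hz h1 (by linarith)
  obtain ⟨M, hM⟩ := hz.bdd
  have k2 := (int_wt (N := N) (S := S) (δ := δ) (r := -s) (R := ‖y‖) (τ := s + S) hδ
    (by linarith) h2 (by linarith) le_rfl hc.aestronglyMeasurable
    ⟨M, fun w => hM (-S) ⟨h1.le, by linarith⟩ w⟩ hB).2
  refine k1.trans ((mul_le_mul_of_nonneg_left k2 (Real.exp_nonneg _)).trans (le_of_eq ?_))
  unfold cst
  ring

/-- local modulus of continuity -/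
theorem equi (hIEL : T_IEL) (N : ℕ) (K : ℝ) (hK : 0 < K) : ∃ C ≥ 1, ∀ (V z : ℝ → E N → ℝ)
    (a : ℝ), Pt K V → LinD V a 0 z → ∀ t0 τ0 : ℝ, 0 < τ0 → τ0 ≤ 1 / 2 → 8 * τ0 ≤ -t0 →
    a < -(τ0 - t0) → ∀ B, ∫ y, hk (τ0 - t0) y * |z (-(τ0 - t0)) y| ≤ B → ∀ x0 x : E N, ∀ t,
    |t - t0| ≤ τ0 / 4 → ‖x - x0‖ ≤ 1 →
    |z t x - z t0 x0| ≤ C / √(τ0 / 2) * (cst N (τ0 - t0) τ0 (-t0 - 4 * τ0) (‖x0‖ + 1) * B) *
      (‖x - x0‖ + √|t - t0|) := by
  obtain ⟨C, hC1, hC⟩ := hIEL N K hK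
  refine ⟨C, hC1, ?_⟩
  intro V z a hV hz t0 τ0 hτ0 hτ1 ht0 ha B hB x0 x t ht hx
  obtain ⟨g1, g2⟩ := hC V z a 0 hV hz
  set s : ℝ := -(τ0 - t0) with hs
  set S : ℝ := τ0 - t0 with hS
  set M1 : ℝ := cst N S τ0 (-t0 - 4 * τ0) (‖x0‖ + 1) with hM1
  have hM0 : 0 ≤ M1 := cst_nonneg (by rw [hS]; linarith) hτ0
  have hc := slice_cont hz ha (by rw [hs]; linarith)
  obtain ⟨M, hM⟩ := hz.bdd
  have hMs : ∃ M, ∀ w, |z s w| ≤ M := ⟨M, fun w => hM s ⟨ha.le, by rw [hs]; linarith⟩ w⟩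
  have hB0 : 0 ≤ B := by
    refine le_trans (integral_nonneg fun y => ?_) hB
    exact mul_nonneg (hk_nonneg (by rw [hS]; linarith) _) (abs_nonneg _)
  have hav : ∀ τ, τ0 ≤ τ → τ ≤ 5 * τ0 → ∀ w : E N, ‖w - x0‖ ≤ 1 →
      ∫ y, hk τ (w - y) * |z s y| ≤ M1 * B := by
    intro τ k1 k2 w hw
    refine (int_wt (N := N) (S := S) (δ := τ0) (r := -t0 - 4 * τ0) (R := ‖x0‖ + 1) (τ := τ) hτ0
      (by linarith) k1 (by rw [hS]; linarith) ?_ hc.aestronglyMeasurable hMs hB).2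
    calc ‖w‖ = ‖(w - x0) + x0‖ := by rw [sub_add_cancel]
      _ ≤ ‖w - x0‖ + ‖x0‖ := norm_add_le _ _
      _ ≤ ‖x0‖ + 1 := by linarith
  have hsq : 0 < √(τ0 / 2) := Real.sqrt_pos.2 (by positivity)
  have hM1B : 0 ≤ M1 * B := mul_nonneg hM0 hB0
  have hC0 : 0 < C := by linarith
  set L : ℝ := C / √(τ0 / 2) * (M1 * B) with hL
  have hL0 : 0 ≤ L := by positivity
  rw [abs_le] at ht
  -- gradient
  have hgr : |z t x - z t x0| ≤ L * ‖x - x0‖ := by
    have hst : s < t := by rw [hs]; linarith [ht.1]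
    obtain ⟨d1, d2⟩ := g1 s t ha.le hst (by linarith [ht.2]) (by rw [hs]; linarith [ht.2])
    have hbd : ∀ w ∈ closedBall x0 1, ‖fderiv ℝ (z t) w‖ ≤ L := by
      intro w hw
      rw [mem_closedBall, dist_eq_norm] at hw
      refine (d2 w).trans ?_
      have k1 := hav (2 * (t - s)) (by rw [hs]; linarith [ht.1]) (by rw [hs]; linarith [ht.2]) w hw
      have k2 : C / √(t - s) ≤ C / √(τ0 / 2) := by
        refine div_le_div_of_nonneg_left hC0.le hsq (Real.sqrt_le_sqrt ?_)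
        rw [hs]
        linarith [ht.1]
      exact mul_le_mul k2 k1 (integral_nonneg fun y =>
        mul_nonneg (hk_nonneg (by linarith) _) (abs_nonneg _)) (by positivity)
    have k3 := Convex.norm_image_sub_le_of_norm_fderiv_le (𝕜 := ℝ) (f := z t) (C := L)
      (s := closedBall x0 1) (x := x0) (y := x)
      (fun w _ => (d1 w (mem_univ _)).differentiableAt univ_mem) hbd (convex_closedBall x0 1)
      (mem_closedBall_self (by norm_num)) (by rw [mem_closedBall, dist_eq_norm]; exact hx)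
    rwa [Real.norm_eq_abs] at k3
  -- time
  have htm : ∀ t1 t2 : ℝ, t0 - τ0 / 4 ≤ t1 → t1 ≤ t2 → t2 ≤ t0 + τ0 / 4 →
      |z t2 x0 - z t1 x0| ≤ L * √(t2 - t1) := by
    intro t1 t2 k1 k2 k3
    have k4 := g2 s t1 t2 ha.le (by rw [hs]; linarith) k2 (by linarith) (by rw [hs]; linarith)
      (by rw [hs]; linarith) x0
    have k5 := hav (4 * (t1 - s)) (by rw [hs]; linarith) (by rw [hs]; linarith) x0 (by simp)
    have k6 : √((t2 - t1) / (t1 - s)) ≤ √(t2 - t1) / √(τ0 / 2) := by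
      rw [← Real.sqrt_div' _ (by positivity)]
      refine Real.sqrt_le_sqrt ?_
      refine div_le_div_of_nonneg_left (by linarith) (by positivity) ?_
      rw [hs]
      linarith
    refine k4.trans ?_
    calc C * √((t2 - t1) / (t1 - s)) * ∫ y, hk (4 * (t1 - s)) (x0 - y) * |z s y|
        ≤ C * (√(t2 - t1) / √(τ0 / 2)) * (M1 * B) := by
          refine mul_le_mul (mul_le_mul_of_nonneg_left k6 hC0.le) k5 (integral_nonneg fun y =>
            mul_nonneg (hk_nonneg ?_ _) (abs_nonneg _)) (by positivity)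
          rw [hs]
          linarith
      _ = L * √(t2 - t1) := by rw [hL]; ring
  have htm' : |z t x0 - z t0 x0| ≤ L * √|t - t0| := by
    rcases le_total t0 t with h | h
    · rw [abs_of_nonneg (by linarith : (0 : ℝ) ≤ t - t0)]
      exact htm t0 t (by linarith) h (by linarith [ht.2])
    · rw [abs_sub_comm, abs_sub_comm t t0, abs_of_nonneg (by linarith : (0 : ℝ) ≤ t0 - t)]
      exact htm t t0 (by linarith [ht.1]) h (by linarith)
  calc |z t x - z t0 x0| ≤ |z t x - z t x0| + |z t x0 - z t0 x0| := abs_sub_le _ _ _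
    _ ≤ L * (‖x - x0‖ + √|t - t0|) := by linarith

/-- local bound -/
theorem locb (hREP : T_KREP) (hKER : T_KER) {K : ℝ} {V z : ℝ → E N → ℝ} {a : ℝ} (hV : Pt K V)
    (hz : LinD V a 0 z) {t0 τ0 B : ℝ} (hτ0 : 0 < τ0) (ht0 : 8 * τ0 ≤ -t0)
    (ha : a < -(τ0 - t0)) (hB : ∫ y, hk (τ0 - t0) y * |z (-(τ0 - t0)) y| ≤ B) (x0 : E N) :
    |z t0 x0| ≤ Real.exp (K * (t0 + (τ0 - t0))) * ((τ0 - t0) / τ0) ^ ((N : ℝ) / 2) * B *
      Real.exp (‖x0‖ ^ 2 / (4 * (-t0))) :=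
  growth hREP hKER hV hz ha hτ0 (by linarith) (by linarith) (by linarith) hB x0

/-- the target -/
theorem lcpt (hIEL : T_IEL) (hKCV : T_KCV) (hREP : T_KREP) (hKER : T_KER) : T_LCPT := by
  intro N K V W z a hV hW hVW ha hz hB
  have hK : 0 < K := hW.K0
  obtain ⟨C, hC1, hC⟩ := equi hIEL N K hK
  have hC0 : 0 < C := by linarith
  let Ω : Set (ℝ × E N) := Iio 0 ×ˢ univ
  have hne : Ω.Nonempty := ⟨(-1, 0), by simp [Ω]⟩
  have hτ : ∀ t0 : ℝ, t0 < 0 → ∃ τ0 : ℝ, 0 < τ0 ∧ τ0 ≤ 1 / 2 ∧ 8 * τ0 ≤ -t0 := by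
    intro t0 h0
    refine ⟨min (1 / 2) (-t0 / 8), lt_min (by norm_num) (by linarith), min_le_left _ _, ?_⟩
    have := min_le_right (1 / 2) (-t0 / 8)
    linarith
  have hae : ∀ b : ℝ, ∀ᶠ n in atTop, a n < b := fun b => ha.eventually (eventually_lt_atBot b)
  obtain ⟨σ, ζ, hσ, hζc, hζu⟩ := aa hne (fun n (p : ℝ × E N) => z n p.1 p.2)
    (by
      rintro ⟨t0, x0⟩ hp
      have h0 : t0 < 0 := hp.1
      obtain ⟨τ0, h1, h2, h3⟩ := hτ t0 h0
      obtain ⟨B, hB⟩ := hB (τ0 - t0) (by linarith)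
      refine ⟨Real.exp (K * (t0 + (τ0 - t0))) * ((τ0 - t0) / τ0) ^ ((N : ℝ) / 2) * B *
        Real.exp (‖x0‖ ^ 2 / (4 * (-t0))), ?_⟩
      filter_upwards [hB, hae (-(τ0 - t0))] with n k1 k2
      exact locb hREP hKER (hV n) (hz n) h1 h3 k2 k1 x0)
    (by
      rintro ⟨t0, x0⟩ hp ε hε
      have h0 : t0 < 0 := hp.1
      obtain ⟨τ0, h1, h2, h3⟩ := hτ t0 h0
      obtain ⟨B, hB⟩ := hB (τ0 - t0) (by linarith)
      set L : ℝ := C / √(τ0 / 2) *
        (cst N (τ0 - t0) τ0 (-t0 - 4 * τ0) (‖x0‖ + 1) * B) with hL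
      have hct : Continuous fun q : ℝ × E N => L * (‖q.2 - x0‖ + √|q.1 - t0|) := by fun_prop
      have hU1 : {q : ℝ × E N | L * (‖q.2 - x0‖ + √|q.1 - t0|) < ε} ∈ 𝓝 ((t0, x0) : ℝ × E N) := by
        refine (isOpen_lt hct continuous_const).mem_nhds ?_
        rw [mem_ofPred_eq]
        simpa using hε
      have hU2 : {q : ℝ × E N | |q.1 - t0| < τ0 / 4} ∈ 𝓝 ((t0, x0) : ℝ × E N) := by
        refine (isOpen_lt (by fun_prop) continuous_const).mem_nhds ?_
        rw [mem_ofPred_eq]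
        simpa using h1
      have hU3 : {q : ℝ × E N | ‖q.2 - x0‖ < 1} ∈ 𝓝 ((t0, x0) : ℝ × E N) := by
        refine (isOpen_lt (by fun_prop) continuous_const).mem_nhds ?_
        rw [mem_ofPred_eq]
        simp
      refine ⟨_, inter_mem hU1 (inter_mem hU2 hU3), ?_⟩
      filter_upwards [hB, hae (-(τ0 - t0))] with n k1 k2
      rintro ⟨t, x⟩ ⟨q1, q2, q3⟩
      rw [mem_ofPred_eq] at q1 q2 q3
      have k3 := hC (V n) (z n) (a n) (hV n) (hz n) t0 τ0 h1 h2 h3 k2 B k1 x0 x t q2.le q3.le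
      exact k3.trans q1.le)
  have hσt : Tendsto σ atTop atTop := hσ.tendsto_atTop
  have haσ : ∀ b : ℝ, ∀ᶠ n in atTop, a (σ n) < b := fun b => hσt.eventually (hae b)
  -- pointwise convergence
  have hpt : ∀ t < 0, ∀ x, Tendsto (fun n => z (σ n) t x) atTop (𝓝 (ζ (t, x))) := by
    intro t ht x
    exact hζu.tendsto_at (a := (t, x)) ⟨ht, mem_univ _⟩
  have hζs : ∀ s < 0, Continuous fun y => ζ (s, y) := by
    intro s hs
    rw [← continuousOn_univ]
    refine hζc.comp (f := fun y : E N => (s, y)) (by fun_prop) ?_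
    intro y _
    exact ⟨hs, mem_univ _⟩
  -- uniform growth
  have hgrow : ∀ s < 0, ∃ D ≥ 0, (∀ᶠ n in atTop, a (σ n) < s ∧
      ∀ y, |z (σ n) s y| ≤ D * Real.exp (‖y‖ ^ 2 / (4 * (-s)))) ∧
      ∀ y, |ζ (s, y)| ≤ D * Real.exp (‖y‖ ^ 2 / (4 * (-s))) := by
    intro s hs
    obtain ⟨B, hB⟩ := hB (-s + 1) (by linarith)
    have hev : ∀ᶠ n in atTop, a (σ n) < s ∧ ∀ y, |z (σ n) s y| ≤
        |Real.exp (K * (s + (-s + 1))) * ((-s + 1) / 1) ^ ((N : ℝ) / 2) * B| *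
          Real.exp (‖y‖ ^ 2 / (4 * (-s))) := by
      filter_upwards [hσt.eventually hB, haσ (-(-s + 1))] with n k1 k2
      refine ⟨by linarith, fun y => ?_⟩
      have k3 := growth (δ := 1) hREP hKER (hV (σ n)) (hz (σ n)) k2 one_pos (by linarith) hs hs.le
        k1 y
      exact k3.trans (mul_le_mul_of_nonneg_right (le_abs_self _) (Real.exp_nonneg _))
    refine ⟨_, abs_nonneg _, hev, fun y => ?_⟩
    refine le_of_tendsto (hpt s hs y).abs ?_
    filter_upwards [hev] with n hn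
    exact hn.2 y
  refine ⟨σ, fun t x => ζ (t, x), hσ, ?_, hζc, ?_, ?_⟩
  · intro R _ r hr
    have hcp : IsCompact (Icc (-R) (-r) ×ˢ closedBall (0 : E N) R) :=
      isCompact_Icc.prod (isCompact_closedBall 0 R)
    have hsub : Icc (-R) (-r) ×ˢ closedBall (0 : E N) R ⊆ Ω := by
      rintro ⟨t, x⟩ ⟨h1, _⟩
      exact ⟨lt_of_le_of_lt h1.2 (by linarith), mem_univ _⟩
    exact (tendstoLocallyUniformlyOn_iff_tendstoUniformlyOn_of_compact hcp).1 (hζu.mono hsub)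
  · intro s t hst ht x
    have hs : s < 0 := hst.trans ht
    obtain ⟨D, hD0, hD1, hD2⟩ := hgrow s hs
    have hker : ∀ {V : ℝ → E N → ℝ}, Pt K V → ∀ y, |gk V t x s y| ≤
        Real.exp (K * (t - s)) * hk (t - s) (x - y) := by
      intro V hV y
      have h4 := (hKER N K V hV).2.1 s t hst x y
      have h5 : 0 ≤ gk V t x s y :=
        (mul_nonneg (Real.exp_nonneg _) (hk_nonneg (by linarith) _)).trans h4.1
      rw [abs_of_nonneg h5]
      exact h4.2
    have hdom : Integrable (fun y : E N => Real.exp (K * (t - s)) * D *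
        (hk (t - s) (x - y) * Real.exp (‖y‖ ^ 2 / (4 * (-s))))) :=
      (gdom (by linarith) (by linarith) x).const_mul _
    have hmeas : ∀ {V : ℝ → E N → ℝ}, Pt K V → Measurable (fun y => gk V t x s y) := by
      intro V hV
      exact ((hKER N K V hV).1 s t hst).comp (measurable_const.prodMk measurable_id)
    have hbd : ∀ {V : ℝ → E N → ℝ} {g : E N → ℝ}, Pt K V →
        (∀ y, |g y| ≤ D * Real.exp (‖y‖ ^ 2 / (4 * (-s)))) → ∀ y, ‖gk V t x s y * g y‖ ≤
        Real.exp (K * (t - s)) * D * (hk (t - s) (x - y) * Real.exp (‖y‖ ^ 2 / (4 * (-s)))) := by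
      intro V g hV hg y
      rw [norm_mul, Real.norm_eq_abs, Real.norm_eq_abs]
      calc |gk V t x s y| * |g y| ≤ (Real.exp (K * (t - s)) * hk (t - s) (x - y)) *
            (D * Real.exp (‖y‖ ^ 2 / (4 * (-s)))) :=
            mul_le_mul (hker hV y) (hg y) (abs_nonneg _) ((abs_nonneg _).trans (hker hV y))
        _ = _ := by ring
    refine ⟨hdom.mono' ((hmeas hW).mul (hζs s hs).measurable).aestronglyMeasurable
      (Eventually.of_forall (hbd hW hD2)), ?_⟩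
    have hlim : Tendsto (fun n => ∫ y, gk (V (σ n)) t x s y * z (σ n) s y) atTop
        (𝓝 (∫ y, gk W t x s y * ζ (s, y))) := by
      refine tendsto_integral_filter_of_dominated_convergence (fun y : E N =>
        Real.exp (K * (t - s)) * D *
        (hk (t - s) (x - y) * Real.exp (‖y‖ ^ 2 / (4 * (-s))))) ?_ ?_ hdom ?_
      · filter_upwards [hD1] with n hn
        have hc := slice_cont (hz (σ n)) hn.1 hs.le
        exact ((hmeas (hV (σ n))).mul hc.measurable).aestronglyMeasurable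
      · filter_upwards [hD1] with n hn
        exact Eventually.of_forall (hbd (hV (σ n)) hn.2)
      · refine Eventually.of_forall fun y => ?_
        refine Tendsto.mul ?_ (hpt s hs y)
        refine hKCV N K s t (fun n => V (σ n)) W (fun n => hV (σ n)) hW hst ?_ x y
        intro r hr w
        exact (hVW r (hr.2.trans ht) w).comp hσt
    refine tendsto_nhds_unique (hpt t ht x) (hlim.congr' ?_)
    filter_upwards [hD1] with n hn
    exact (hREP N K (a (σ n)) 0 (V (σ n)) (z (σ n)) (hV _) (hz _) s t hn.1.le hst ht.le x).symm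
  · intro S hS
    obtain ⟨B, hB⟩ := hB S hS
    refine fatou (G := fun n y => hk S y * z (σ n) (-S) y) (B := B) ?_
      (fun y => (hpt (-S) (by linarith) y).const_mul _)
    filter_upwards [hσt.eventually hB, haσ (-S)] with n k1 k2
    have hc := slice_cont (hz (σ n)) k2 (by linarith)
    obtain ⟨M, hM⟩ := (hz (σ n)).bdd
    refine ⟨(integrable_hk hS).mul_bdd (c := M) hc.aestronglyMeasurable
      (Eventually.of_forall fun y => hM (-S) ⟨k2.le, by linarith⟩ y), ?_⟩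
    refine le_trans (le_of_eq ?_) k1
    refine integral_congr_ae (Eventually.of_forall fun y => ?_)
    show |hk S y * z (σ n) (-S) y| = hk S y * |z (σ n) (-S) y|
    rw [abs_mul, abs_of_nonneg (hk_nonneg hS.le y)]

end Pool.Agent.H95.RF.LCPT
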