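import Pool.Agent.H95.RF.LirA

/-!
# [LIR] local gain in windows of maximal tilt (MP_609556_an)
-/

set_option autoImplicit false

open MeasureTheory Set Filter Topology Metric
open Pool.Agent.H29.TF (hk P hk_pos hk_nonneg hk_le continuous_hk integrable_hk integrable_hk_sub
  hk_neg)
open Pool.Agent.H91.RD Pool.Agent.H91.RF

namespace Pool.Agent.H95.RF.LIR

variable {N : ℕ}

theorem gr_cont {U : Set (E N)} {f : ℝ → ℝ} {u : ℝ → E N → ℝ} (h : IsSol f U u) {t : ℝ}
    (ht : 0 < t) : Continuous (fun x => gr u t x) := by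
  unfold gr
  exact ((h.c2 t ht).continuous_fderiv (by norm_num)).norm

/-- weighted bound of the normalised derivative -/
theorem zq_bound (hPAST : T_PAST) (hLINU : T_LINU) {f : ℝ → ℝ} {K cc C0 C9 η0 : ℝ}
    {U : Set (E N)} {u : ℝ → E N → ℝ} {tn : ℕ → ℝ} {xn en : ℕ → E N} {e : E N}
    (h : Sq f K cc C0 C9 η0 U u tn xn en e) (S : ℝ) (hS : 0 < S) :
    ∃ B, ∀ᶠ n in atTop, ∫ y, hk S y * |zq u (tn n) (xn n) (en n) (-S) y| ≤ B := by
  obtain ⟨C, hC1, η, hη, T, hT, hC⟩ := hPAST N f K cc C0 C9 η0 U u h.stg h.cc0 h.frm S hS 1 one_pos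
  obtain ⟨M, hM⟩ := (hLINU N f K U u h.stg.reac h.stg.lip h.stg.sol).2.2.2
  refine ⟨C, ?_⟩
  filter_upwards [h.lim.eventually_ge_atTop T, h.lim.eventually_ge_atTop (S + 1), h.dir η hη,
    h.seq.2 η hη] with n k1 k2 k3 k4
  have k5 := (hC (tn n) k1 (xn n) (en n) k3 k4.2 (xn n) (by simp)).2
  have hp := h.pos n
  have k6 : ∫ z, hk S (xn n - z) * gr u (tn n - S) z =
      ∫ y, hk S y * gr u (tn n - S) (xn n + y) := by
    rw [← integral_add_left_eq_self (fun z => hk S (xn n - z) * gr u (tn n - S) z) (xn n)]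
    refine integral_congr_ae (Eventually.of_forall fun y => ?_)
    show hk S (xn n - (xn n + y)) * gr u (tn n - S) (xn n + y) =
      hk S y * gr u (tn n - S) (xn n + y)
    rw [sub_add_cancel_left, hk_neg]
  have hi : Integrable (fun y => hk S y * gr u (tn n - S) (xn n + y)) := by
    refine (integrable_hk hS).mul_bdd (c := M) ?_ (Eventually.of_forall fun y => ?_)
    · refine Continuous.aestronglyMeasurable ?_
      exact (gr_cont h.stg.sol.sol (by linarith : 0 < tn n - S)).comp (continuous_const_add _)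
    · have := (hM (tn n - S) (by linarith) (xn n + y)).1
      rw [Real.norm_of_nonneg (by unfold gr; exact norm_nonneg _)]
      exact this
  calc ∫ y, hk S y * |zq u (tn n) (xn n) (en n) (-S) y|
      ≤ ∫ y, (-dx u (en n) (tn n) (xn n))⁻¹ * (hk S y * gr u (tn n - S) (xn n + y)) := by
        refine integral_mono_of_nonneg (Eventually.of_forall fun y =>
          mul_nonneg (hk_nonneg hS.le _) (abs_nonneg _)) (hi.const_mul _)
          (Eventually.of_forall fun y => ?_)
        show hk S y * |zq u (tn n) (xn n) (en n) (-S) y| ≤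
          (-dx u (en n) (tn n) (xn n))⁻¹ * (hk S y * gr u (tn n - S) (xn n + y))
        have q1 : |zq u (tn n) (xn n) (en n) (-S) y| ≤
            (-dx u (en n) (tn n) (xn n))⁻¹ * gr u (tn n - S) (xn n + y) := by
          unfold zq
          rw [abs_mul, abs_inv, ← abs_neg (dx u (en n) (tn n) (xn n)), abs_of_pos hp]
          refine mul_le_mul_of_nonneg_left ?_ (inv_pos.2 hp).le
          exact abs_dx_le u (h.unit n) _ _
        calc hk S y * |zq u (tn n) (xn n) (en n) (-S) y|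
            ≤ hk S y * ((-dx u (en n) (tn n) (xn n))⁻¹ * gr u (tn n - S) (xn n + y)) :=
              mul_le_mul_of_nonneg_left q1 (hk_nonneg hS.le _)
          _ = _ := by ring
    _ = (-dx u (en n) (tn n) (xn n))⁻¹ * ∫ y, hk S y * gr u (tn n - S) (xn n + y) :=
        integral_const_mul _ _
    _ ≤ (-dx u (en n) (tn n) (xn n))⁻¹ * (C * -dx u (en n) (tn n) (xn n)) := by
        rw [← k6]
        exact mul_le_mul_of_nonneg_left k5 (inv_pos.2 hp).le
    _ = C := by rw [mul_comm C, ← mul_assoc, inv_mul_cancel₀ hp.ne', one_mul]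

/-- the gain functional of the normalised sequence -/
theorem gn_norm (hGTR : T_GTR) (hGSC : T_GSC) (hLINU : T_LINU) {f : ℝ → ℝ}
    {K cc C0 C9 η0 : ℝ} {U : Set (E N)} {u : ℝ → E N → ℝ} {tn : ℕ → ℝ} {xn en : ℕ → E N} {e : E N}
    (h : Sq f K cc C0 C9 η0 U u tn xn en e) (β c : ℝ) (n : ℕ)
    (h1 : 1 ≤ ∫ y, gk (Vq f u (tn n) (xn n)) 0 0 (0 - 1) y *
      max (zq u (tn n) (xn n) (en n) (0 - 1) y) 0) :
    Gn (Vq f u (tn n) (xn n)) (fun y => max (zq u (tn n) (xn n) (en n) (0 - 1) y) 0) β c (en n)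
      1 0 0 = Gn (pot f u) (fun y => max (-dx u (en n) (tn n - 1) y) 0) β c (en n) 1 (tn n) (xn n) -
        Real.log (-dx u (en n) (tn n) (xn n)) := by
  have hp := h.pos n
  have hip : 0 < (-dx u (en n) (tn n) (xn n))⁻¹ := inv_pos.2 hp
  rw [(hGTR N (pot f u) (fun y => max (-dx u (en n) (tn n - 1) y) 0) β c 1 (tn n) (en n) (xn n)
    one_pos).1]
  set H : E N → ℝ := fun y => max (-dx u (en n) (tn n - 1) (xn n + y)) 0 with hH
  have e1 : (fun y => max (zq u (tn n) (xn n) (en n) (0 - 1) y) 0) =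
      fun y => (-dx u (en n) (tn n) (xn n))⁻¹ * H y := by
    ext y
    rw [hH]
    simp only []
    rw [mul_max_of_nonneg _ _ hip.le, mul_zero]
    unfold zq
    rw [show tn n + (0 - 1) = tn n - 1 by ring, inv_neg, neg_mul_neg]
  have e2 : H = fun y => (-dx u (en n) (tn n) (xn n)) *
      max (zq u (tn n) (xn n) (en n) (0 - 1) y) 0 := by
    ext y
    have e3 : max (zq u (tn n) (xn n) (en n) (0 - 1) y) 0 =
      (-dx u (en n) (tn n) (xn n))⁻¹ * H y := congrFun e1 y
    rw [e3, ← mul_assoc, mul_inv_cancel₀ hp.ne', one_mul]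
  have hzc : Continuous (zq u (tn n) (xn n) (en n) (0 - 1)) :=
    slice_cont (lin_zq hLINU h.stg (by linarith [h.t3 n]) (xn n) (en n)) (by linarith [h.t3 n])
      (by norm_num)
  have hHm : Measurable H := by
    rw [e2]
    exact (hzc.measurable.max measurable_const).const_mul _
  obtain ⟨M, hM⟩ := (hLINU N f K U u h.stg.reac h.stg.lip h.stg.sol).2.2.2
  have hHb : ∃ M, ∀ y, H y ≤ M := by
    refine ⟨max M 0, fun y => ?_⟩
    rw [hH]
    refine max_le_max ?_ le_rfl
    have k1 : 1 ≤ tn n - 1 := by linarith [h.t3 n]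
    exact (neg_le_abs _).trans ((abs_dx_le u (h.unit n) _ _).trans (hM _ k1 _).1)
  have hpos : 0 < ∫ y, gk (Vq f u (tn n) (xn n)) 0 0 (0 - 1) y * H y := by
    have k2 : ∫ y, gk (Vq f u (tn n) (xn n)) 0 0 (0 - 1) y * H y =
        (-dx u (en n) (tn n) (xn n)) * ∫ y, gk (Vq f u (tn n) (xn n)) 0 0 (0 - 1) y *
          max (zq u (tn n) (xn n) (en n) (0 - 1) y) 0 := by
      rw [← integral_const_mul, e2]
      refine integral_congr_ae (Eventually.of_forall fun y => ?_)
      show gk (Vq f u (tn n) (xn n)) 0 0 (0 - 1) y * (-dx u (en n) (tn n) (xn n) *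
        max (zq u (tn n) (xn n) (en n) (0 - 1) y) 0) = -dx u (en n) (tn n) (xn n) *
        (gk (Vq f u (tn n) (xn n)) 0 0 (0 - 1) y * max (zq u (tn n) (xn n) (en n) (0 - 1) y) 0)
      ring
    rw [k2]
    exact mul_pos hp (lt_of_lt_of_le one_pos h1)
  rw [e1, hGSC N K (Vq f u (tn n) (xn n)) H β c 1 0 _ (en n) 0 (pt_Vq hLINU h.stg _ _) one_pos
    hip hHm (fun y => le_max_right _ _) hHb hpos, Real.log_inv]
  rfl

/-- the limit argument -/
theorem core (hLCPT : T_LCPT) (hGLIM : T_GLIM) (hENTG : T_ENTG) (hGTR : T_GTR) (hGSC : T_GSC)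
    (hUPB : T_UPB) (hPAST : T_PAST) (hKREP : T_KREP) (hNSUP : T_NSUP) (hLINU : T_LINU)
    (hKER : T_KER) {f : ℝ → ℝ} {K cc C0 C9 η0 : ℝ} {U : Set (E N)} {u : ℝ → E N → ℝ} {tn : ℕ → ℝ}
    {xn en : ℕ → E N} {e : E N} (h : Sq f K cc C0 C9 η0 U u tn xn en e) {κ : ℝ} (hκK : |κ| ≤ K)
    (hκ : ∀ t ≤ 0, ∀ x, Tendsto (fun n => Vq f u (tn n) (xn n) t x) atTop (𝓝 κ)) {g : ℝ}
    (hG : ∀ n, Gn (pot f u) (fun y => max (-dx u (en n) (tn n - 1) y) 0) (cc / 2) cc (en n) 1
      (tn n) (xn n) < Real.log (-dx u (en n) (tn n) (xn n)) + g) : cc ^ 2 / 4 - κ ≤ g := by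
  have hK := h.stg.lip.K0
  let W : ℝ → E N → ℝ := fun _ _ => κ
  have hW : Pt K W := ⟨hK, fun _ _ => hκK, measurable_const⟩
  have hpt : ∀ n, Pt K (Vq f u (tn n) (xn n)) := fun n => pt_Vq hLINU h.stg _ _
  have hlin : ∀ n, LinD (Vq f u (tn n) (xn n)) (1 - tn n) 0 (zq u (tn n) (xn n) (en n)) :=
    fun n => lin_zq hLINU h.stg (by linarith [h.t3 n]) _ _
  have hat : Tendsto (fun n => 1 - tn n) atTop atBot := by
    have := tendsto_neg_atTop_atBot.comp h.lim
    exact (tendsto_atBot_add_const_left atTop 1 this).congr fun n => by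
      simp only [Function.comp_apply]
      ring
  obtain ⟨σ, ζ, hσ, hζu, hζc, -, -⟩ := hLCPT N K (fun n => Vq f u (tn n) (xn n)) W
    (fun n => zq u (tn n) (xn n) (en n)) (fun n => 1 - tn n) hpt hW
    (fun t ht x => hκ t ht.le x) hat hlin (fun S hS => zq_bound hPAST hLINU h S hS)
  have hσt := hσ.tendsto_atTop
  have hζ1 : Continuous (fun y => ζ (0 - 1) y) := by
    rw [← continuousOn_univ]
    refine hζc.comp (f := fun y : E N => ((0 : ℝ) - 1, y)) (by fun_prop) ?_
    intro y _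
    refine ⟨?_, mem_univ _⟩
    show (0 : ℝ) - 1 < 0
    norm_num
  obtain ⟨hn1, hn2⟩ := nrm hKREP hNSUP hUPB hLINU hKER h
  set h' : ℕ → E N → ℝ := fun n y => max (zq u (tn (σ n)) (xn (σ n)) (en (σ n)) (0 - 1) y) 0
    with hh'
  set hl : E N → ℝ := fun y => max (ζ (0 - 1) y) 0 with hhl
  have hunif : ∀ R : ℝ, TendstoUniformlyOn
      (fun n y => zq u (tn (σ n)) (xn (σ n)) (en (σ n)) (0 - 1) y) (fun y => ζ (0 - 1) y) atTop
      (closedBall 0 R) := by
    intro R
    have k1 := hζu (max R 1) (lt_max_of_lt_right one_pos) 1 one_pos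
    rw [Metric.tendstoUniformlyOn_iff] at k1 ⊢
    intro ε hε
    filter_upwards [k1 ε hε] with n hn
    intro y hy
    refine hn (0 - 1, y) ⟨⟨?_, ?_⟩, ?_⟩
    · show -(max R 1) ≤ (0 : ℝ) - 1
      linarith [le_max_right R 1]
    · show (0 : ℝ) - 1 ≤ -1
      norm_num
    · exact closedBall_subset_closedBall (le_max_left _ _) hy
  have hmax : ∀ a b : ℝ, |max a 0 - max b 0| ≤ |a - b| := fun a b => abs_max_sub_max_le_abs a b 0
  obtain ⟨g1, g2, g3, g4, g5⟩ := hGLIM N K 1 (cc / 2) cc g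
    (fun n => Vq f u (tn (σ n)) (xn (σ n))) W h' hl (fun n => en (σ n)) e (fun n => hpt _) hW
    one_pos (fun t ht x => (hκ t ht.2.le x).comp hσt)
    (by
      intro n
      have hzc : Continuous (zq u (tn (σ n)) (xn (σ n)) (en (σ n)) (0 - 1)) :=
        slice_cont (hlin (σ n)) (by linarith [h.t3 (σ n)]) (by norm_num)
      refine ⟨hzc.measurable.max measurable_const, fun y => le_max_right _ _, ?_⟩
      obtain ⟨M, hM⟩ := (hlin (σ n)).bdd
      refine ⟨max M 0, fun y => max_le_max ?_ le_rfl⟩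
      exact (le_abs_self _).trans (hM (0 - 1) ⟨by linarith [h.t3 (σ n)], by norm_num⟩ y))
    (by
      intro y
      have k1 : Tendsto (fun n => zq u (tn (σ n)) (xn (σ n)) (en (σ n)) (0 - 1) y) atTop
          (𝓝 (ζ (0 - 1) y)) := (hunif ‖y‖).tendsto_at (by simp)
      exact k1.max tendsto_const_nhds)
    (by
      intro R _
      obtain ⟨B, hB⟩ := (isCompact_closedBall (0 : E N) R).exists_bound_of_continuousOn
        hζ1.continuousOn
      refine ⟨B + 1 + |B + 1|, ?_⟩
      have k1 := Metric.tendstoUniformlyOn_iff.1 (hunif R) 1 one_pos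
      filter_upwards [k1] with n hn
      intro y hy
      have k2 := hn y hy
      have k3 := hB y hy
      rw [Real.dist_eq] at k2
      rw [Real.norm_eq_abs] at k3
      rw [abs_lt] at k2
      rw [abs_le] at k3
      refine max_le ?_ ?_
      · linarith [k2.1, k3.2, abs_nonneg (B + 1)]
      · linarith [neg_abs_le (B + 1)])
    (fun n => h.unit _) (h.cv.comp hσt) (hn1.comp hσt)
    (by
      intro n
      show Gn (Vq f u (tn (σ n)) (xn (σ n))) (fun y => max (zq u (tn (σ n)) (xn (σ n))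
        (en (σ n)) (0 - 1) y) 0) (cc / 2) cc (en (σ n)) 1 0 0 ≤ g
      rw [gn_norm hGTR hGSC hLINU h (cc / 2) cc (σ n) (hn2 (σ n))]
      linarith [hG (σ n)])
  -- upper bound of the limit
  have hup : Gn W hl (cc / 2) cc e 1 0 0 ≤ g := by
    refine le_of_forall_pos_le_add fun ε hε => ?_
    obtain ⟨n, hn⟩ := (g5 ε hε).exists
    have k1 : Gn (Vq f u (tn (σ n)) (xn (σ n))) (fun y => max (zq u (tn (σ n)) (xn (σ n))
        (en (σ n)) (0 - 1) y) 0) (cc / 2) cc (en (σ n)) 1 0 0 ≤ g := by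
      rw [gn_norm hGTR hGSC hLINU h (cc / 2) cc (σ n) (hn2 (σ n))]
      linarith [hG (σ n)]
    have k2 := hn.trans k1
    linarith
  -- lower bound by the entropy inequality
  have h01 : (0 : ℝ) - 1 < 0 := by norm_num
  have hgk : ∀ y : E N, gk W 0 0 (0 - 1) y = Real.exp (κ * 1) * hk 1 (0 - y) := by
    intro y
    have := gk_const κ (0 : E N) y h01
    rw [show (0 : ℝ) - (0 - 1) = 1 by norm_num] at this
    exact this
  have hGm : Measurable (fun y => gk W 0 0 (0 - 1) y) := gk_meas hKER hW h01 0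
  have hle := (hENTG N κ 1 (fun y => gk W 0 0 (0 - 1) y) hl 0 one_pos hGm
    (hζ1.measurable.max measurable_const)
    (fun y => ⟨gk_nn hKER hW h01 _ _, (hgk y).le⟩) (fun y => le_max_right _ _) g1
    (by
      show 0 < ∫ y, gk W 0 0 (0 - 1) y * hl y
      rw [g2]
      exact one_pos) g4 (by simpa using g3)).1 e h.unit'
  have hIm : ∫ y, (fun y => gk W 0 0 (0 - 1) y) y * hl y = 1 := g2
  rw [hIm, Real.log_one, div_one, div_one] at hle
  unfold Gn Ex at hup
  rw [g2, div_one, div_one] at hup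
  set m : ℝ := ∫ y, gk W 0 0 (0 - 1) y * hl y * inner ℝ (y - 0) e with hm
  have e3 : ∫ y, gk W 0 0 (0 - 1) y * hl y * Real.log (hl y) =
      ∫ y, gk W 0 0 (0 - 1) y * (hl y * Real.log (hl y)) := by
    refine integral_congr_ae (Eventually.of_forall fun y => ?_)
    show gk W 0 0 (0 - 1) y * hl y * Real.log (hl y) =
      gk W 0 0 (0 - 1) y * (hl y * Real.log (hl y))
    ring
  rw [e3] at hup
  nlinarith [sq_nonneg (m + cc)]

theorem inv_tend (σ : ℕ → ℕ) (hσ : Tendsto σ atTop atTop) :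
    Tendsto (fun n => 1 / ((σ n : ℝ) + 1)) atTop (𝓝 0) :=
  tendsto_one_div_add_atTop_nhds_zero_nat.comp hσ

/-- the target -/
theorem lir (hLCPT : T_LCPT) (hGLIM : T_GLIM) (hENTG : T_ENTG) (hGTR : T_GTR) (hGSC : T_GSC)
    (hSEQ : T_SEQ) (hUPB : T_UPB) (hEXT : T_EXT) (hPAST : T_PAST) (hKREP : T_KREP)
    (hNSUP : T_NSUP) (hLINU : T_LINU) (hFPC : T_FPC) (hKER : T_KER) : T_LIR := by
  intro N f K cc C0 C9 η0 U u hS hcc hF hSat R hR hTilt
  obtain ⟨κb, hκb, hSat⟩ := hSat
  set g : ℝ := (cc ^ 2 / 4 - κb) / 2 with hg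
  have hg0 : 0 < g := by rw [hg]; linarith
  by_contra hcon
  push Not at hcon
  obtain ⟨T0, hT0, hpos⟩ := hF.pos
  have key := fun n : ℕ => hcon g hg0 (1 / ((n : ℝ) + 1)) (by positivity)
    (min (1 / ((n : ℝ) + 1)) η0) (lt_min (by positivity) hF.hη0) (max ((n : ℝ) + 3) T0)
    (lt_max_of_lt_right hT0)
  choose t ht x e h k1 k2 k3 k4 k5 k6 using key
  have htt : Tendsto t atTop atTop := by
    refine tendsto_atTop_mono (fun n => ?_) tendsto_natCast_atTop_atTop
    have := (le_max_left ((n : ℝ) + 3) T0).trans (ht n)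
    linarith
  have ht0 : ∀ n, 3 ≤ t n := by
    intro n
    have := (le_max_left ((n : ℝ) + 3) T0).trans (ht n)
    have : (0 : ℝ) ≤ n := Nat.cast_nonneg n
    linarith
  obtain ⟨σ1, e', h', hσ1, he', hce, hch, hseq⟩ := (hSEQ N U cc hS.condC hS.ne hcc).2 t x e h htt
    (fun n => ⟨ndir_mono (k1 n) (min_le_left _ _), (k2 n).trans (mul_le_mul_of_nonneg_right
      (min_le_left _ _) (by linarith [ht0 n]))⟩) (fun n => (k3 n).le)
  obtain ⟨σ2, w, hσ2, hw, hlim⟩ := hEXT N f K U u hS.lip hS.sol (t ∘ σ1) (x ∘ σ1) hseq.1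
  have hσt : Tendsto (fun n => σ1 (σ2 n)) atTop atTop :=
    hσ1.tendsto_atTop.comp hσ2.tendsto_atTop
  have hsm : ∀ η > 0, ∀ᶠ n in atTop, 1 / ((σ1 (σ2 n) : ℝ) + 1) ≤ η := by
    intro η hη
    exact (inv_tend _ hσt).eventually_le_const hη
  have hpn : ∀ n, 0 < -dx u (e n) (t n) (x n) ∧ gr u (t n) (x n) ≤ C0 * -dx u (e n) (t n) (x n) :=
    fun n => hpos (t n) ((le_max_right _ _).trans (ht n)) (x n) (e n)
      (ndir_mono (k1 n) (min_le_right _ _)) ((k2 n).trans (mul_le_mul_of_nonneg_right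
        (min_le_right _ _) (by linarith [ht0 n])))
  have hSq : Sq f K cc C0 C9 η0 U u (fun n => t (σ1 (σ2 n))) (fun n => x (σ1 (σ2 n)))
      (fun n => e (σ1 (σ2 n))) e' := by
    refine ⟨hS, hcc, hF, htt.comp hσt, fun n => ht0 _, ?_, atSeq_comp hseq hσ2, fun n => (k1 _).1,
      he', hce.comp hσ2.tendsto_atTop, fun n => (hpn _).1⟩
    intro η hη
    filter_upwards [hsm η hη] with n hn
    exact ndir_mono (k1 _) ((min_le_left _ _).trans hn)
  have hce' : Tendsto (fun n => e (σ1 (σ2 n))) atTop (𝓝 e') := hce.comp hσ2.tendsto_atTop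
  have hch' : Tendsto (fun n => h (σ1 (σ2 n))) atTop (𝓝 h') := hch.comp hσ2.tendsto_atTop
  have hh1 : ‖h'‖ = 1 := by
    refine tendsto_nhds_unique hch'.norm ?_
    refine tendsto_const_nhds.congr fun n => ?_
    exact (k3 _).symm
  have hh2 : inner ℝ h' e' = 0 := by
    refine tendsto_nhds_unique (hch'.inner hce') ?_
    refine tendsto_const_nhds.congr fun n => ?_
    exact (k4 _).symm
  -- the ratio
  have hratio : Tendsto (fun n => dx u h' (t (σ1 (σ2 n))) (x (σ1 (σ2 n))) /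
      -dx u e' (t (σ1 (σ2 n))) (x (σ1 (σ2 n)))) atTop (𝓝 R) := by
    have hC0 : 0 < C0 := by linarith [hF.hC0]
    set a : ℕ → ℝ := fun n => 1 / ((σ1 (σ2 n) : ℝ) + 1) + C0 * ‖h' - h (σ1 (σ2 n))‖ with ha
    set b : ℕ → ℝ := fun n => C0 * ‖e' - e (σ1 (σ2 n))‖ with hb
    have ha0 : Tendsto a atTop (𝓝 0) := by
      have q1 : Tendsto (fun n => C0 * ‖h' - h (σ1 (σ2 n))‖) atTop (𝓝 0) := by
        have := ((tendsto_const_nhds (x := h')).sub hch').norm.const_mul C0
        simpa using this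
      have q2 := (inv_tend _ hσt).add q1
      rw [add_zero] at q2
      exact q2
    have hb0 : Tendsto b atTop (𝓝 0) := by
      have := ((tendsto_const_nhds (x := e')).sub hce').norm.const_mul C0
      simpa using this
    have hdx : ∀ (v v' : E N) (τ : ℝ) (y : E N), |dx u v τ y - dx u v' τ y| ≤
        gr u τ y * ‖v - v'‖ := by
      intro v v' τ y
      unfold dx gr
      rw [← map_sub, ← Real.norm_eq_abs]
      exact (fderiv ℝ (u τ) y).le_opNorm _
    have hP : ∀ᶠ n in atTop, 0 < -dx u e' (t (σ1 (σ2 n))) (x (σ1 (σ2 n))) := by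
      filter_upwards [hSq.lim.eventually_ge_atTop T0, hSq.seq.2 η0 hF.hη0] with n q1 q2
      exact (hpos _ q1 _ _ q2.1 q2.2).1
    rw [tendsto_order]
    constructor
    · intro r hr
      have q1 : Tendsto (fun n => (R - a n) / (1 + b n)) atTop (𝓝 R) := by
        have q2 := (tendsto_const_nhds (x := R)).sub ha0
        have q3 := (tendsto_const_nhds (x := (1 : ℝ))).add hb0
        have q4 := q2.div q3 (by norm_num)
        rw [sub_zero, add_zero, div_one] at q4
        exact q4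
      have q5 : Tendsto (fun n => R - a n) atTop (𝓝 R) := by
        simpa using (tendsto_const_nhds (x := R)).sub ha0
      filter_upwards [q1.eventually_const_lt hr, q5.eventually_const_lt hR, hP] with n q6 q7 q8
      refine lt_of_lt_of_le q6 ?_
      have hb1 : 0 ≤ b n := mul_nonneg hC0.le (norm_nonneg _)
      set m := σ1 (σ2 n) with hm
      have r1 := hdx h' (h m) (t m) (x m)
      have r2 := hdx e' (e m) (t m) (x m)
      have r3 := (hpn m).2
      have r0 := (hpn m).1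
      have r4 : gr u (t m) (x m) * ‖h' - h m‖ ≤ C0 * -dx u (e m) (t m) (x m) * ‖h' - h m‖ :=
        mul_le_mul_of_nonneg_right r3 (norm_nonneg _)
      have r5 : gr u (t m) (x m) * ‖e' - e m‖ ≤ C0 * -dx u (e m) (t m) (x m) * ‖e' - e m‖ :=
        mul_le_mul_of_nonneg_right r3 (norm_nonneg _)
      have r6 := k5 m
      rw [abs_le] at r1 r2
      have r7 : (R - a n) * -dx u (e m) (t m) (x m) ≤ dx u h' (t m) (x m) := by
        simp only [ha]
        rw [← hm]
        nlinarith [r1.1]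
      have r8 : -dx u e' (t m) (x m) ≤ (1 + b n) * -dx u (e m) (t m) (x m) := by
        simp only [hb]
        rw [← hm]
        nlinarith [r2.1]
      rw [div_le_div_iff₀ (by linarith) q8]
      calc (R - a n) * -dx u e' (t m) (x m)
          ≤ (R - a n) * ((1 + b n) * -dx u (e m) (t m) (x m)) :=
            mul_le_mul_of_nonneg_left r8 q7.le
        _ = ((R - a n) * -dx u (e m) (t m) (x m)) * (1 + b n) := by ring
        _ ≤ dx u h' (t m) (x m) * (1 + b n) := mul_le_mul_of_nonneg_right r7 (by linarith)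
    · intro r hr
      obtain ⟨η, hη, T, hT, hti⟩ := hTilt ((r - R) / 2) (by linarith)
      filter_upwards [hSq.lim.eventually_ge_atTop T, hSq.seq.2 η hη, hP] with n q1 q2 q3
      have q4 := hti _ q1 _ _ q2.1 q2.2 h' hh1 hh2
      rw [div_lt_iff₀ q3]
      nlinarith
  obtain ⟨b, hb1, hb2⟩ := hSat R hR hTilt (fun n => t (σ1 (σ2 n))) (fun n => x (σ1 (σ2 n))) e' h'
    w hSq.seq hh1 hh2 hratio hw hlim
  obtain ⟨f1, f2, -, -⟩ := hFPC f K hS.reac hS.lip
  have hb01 : b ∈ Icc (0 : ℝ) 1 := by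
    rw [← hb2 0 le_rfl 0]
    exact hw.2 0 0
  have hκ : ∀ τ ≤ 0, ∀ y, Tendsto (fun n => Vq f u (t (σ1 (σ2 n))) (x (σ1 (σ2 n))) τ y) atTop
      (𝓝 (fp f b)) := by
    intro τ hτ y
    have q1 : Tendsto (fun n => u (t (σ1 (σ2 n)) + τ) (x (σ1 (σ2 n)) + y)) atTop (𝓝 b) := by
      have := limAt_pt hlim τ y
      rwa [hb2 τ hτ y] at this
    have q2 : ∀ᶠ n in atTop, 0 < t (σ1 (σ2 n)) + τ := by
      filter_upwards [hSq.lim.eventually_gt_atTop (-τ)] with n hn
      linarith
    have q3 : Tendsto (fun n => u (t (σ1 (σ2 n)) + τ) (x (σ1 (σ2 n)) + y)) atTop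
        (𝓝[Icc 0 1] b) := by
      rw [tendsto_nhdsWithin_iff]
      refine ⟨q1, ?_⟩
      filter_upwards [q2] with n hn
      have := hS.sol.rng (t (σ1 (σ2 n)) + τ) hn.le (x (σ1 (σ2 n)) + y)
      unfold lift0 at this
      rw [if_neg (not_le.2 hn)] at this
      exact this
    refine ((f2 b hb01).tendsto.comp q3).congr' ?_
    filter_upwards [q2] with n hn
    simp only [Function.comp_apply, Vq, pot, if_pos hn]
  have hfin := core hLCPT hGLIM hENTG hGTR hGSC hUPB hPAST hKREP hNSUP hLINU hKER hSq (f1 b) hκ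
    (fun n => k6 _)
  rw [hg] at hfin
  linarith

end Pool.Agent.H95.RF.LIR
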