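import Pool.Agent.H91.RF.TargetsK2

/-!
# Tools for [LIR] (MP_609556_an): shifts, scaling, constant potential, directions
-/

set_option autoImplicit false

open MeasureTheory Set Filter Topology Metric
open Pool.Agent.H29.TF (hk P hk_pos hk_nonneg hk_le continuous_hk integrable_hk integrable_hk_sub
  semigroup_hk)
open Pool.Agent.H91.RD Pool.Agent.H91.RF

namespace Pool.Agent.H95.RF.LIR

variable {N : ℕ}

/-! ### Operations on solutions of the linear equation -/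

theorem P_shift (τ : ℝ) (g : E N → ℝ) (ξ x : E N) :
    P τ (fun y => g (ξ + y)) x = P τ g (ξ + x) := by
  unfold P
  rw [← integral_add_left_eq_self (fun y => hk τ (ξ + x - y) * g y) ξ]
  refine integral_congr_ae (Eventually.of_forall fun y => ?_)
  show hk τ (x - y) * g (ξ + y) = hk τ (ξ + x - (ξ + y)) * g (ξ + y)
  rw [add_sub_add_left_eq_sub]

/-- translation in time and space -/
theorem lin_shift {V z : ℝ → E N → ℝ} {a b : ℝ} (h : LinD V a b z) (τ : ℝ) (ξ : E N) :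
    LinD (fun t x => V (τ + t) (ξ + x)) (a - τ) (b - τ) (fun t x => z (τ + t) (ξ + x)) := by
  obtain ⟨M, hM⟩ := h.bdd
  refine ⟨⟨M, fun t ht x => hM (τ + t) ⟨by linarith [ht.1], by linarith [ht.2]⟩ _⟩, ?_, ?_, ?_⟩
  · have e : τ + (a - τ) = a := by ring
    simp only [e]
    exact h.meas.comp (measurable_const_add ξ)
  · refine h.cont.comp (f := fun p : ℝ × E N => (τ + p.1, ξ + p.2)) (by fun_prop) ?_
    intro p hp
    exact ⟨⟨by linarith [hp.1.1], by linarith [hp.1.2]⟩, mem_univ _⟩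
  · intro s t hs hst ht x
    have k := h.duh (τ + s) (τ + t) (by linarith) (by linarith) (by linarith) (ξ + x)
    have e1 : τ + t - (τ + s) = t - s := by ring
    rw [e1] at k
    show z (τ + t) (ξ + x) = P (t - s) (fun y => z (τ + s) (ξ + y)) x +
      ∫ r in s..t, P (t - r) (fun y => V (τ + r) (ξ + y) * z (τ + r) (ξ + y)) x
    rw [k, P_shift (t - s) (z (τ + s)) ξ x]
    congr 1
    rw [← intervalIntegral.integral_comp_add_left (fun r => P (τ + t - r)
      (fun y => V r y * z r y) (ξ + x)) τ]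
    refine intervalIntegral.integral_congr fun r _ => ?_
    show P (τ + t - (τ + r)) (fun y => V (τ + r) y * z (τ + r) y) (ξ + x) =
      P (t - r) (fun y => V (τ + r) (ξ + y) * z (τ + r) (ξ + y)) x
    rw [P_shift (t - r) (fun y => V (τ + r) y * z (τ + r) y) ξ x]
    congr 1
    ring

/-- multiplication by a constant -/
theorem lin_smul {V z : ℝ → E N → ℝ} {a b : ℝ} (h : LinD V a b z) (c : ℝ) :
    LinD V a b (fun t x => c * z t x) := by
  obtain ⟨M, hM⟩ := h.bdd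
  refine ⟨⟨|c| * M, fun t ht x => ?_⟩, h.meas.const_mul c, ?_, ?_⟩
  · rw [abs_mul]
    exact mul_le_mul_of_nonneg_left (hM t ht x) (abs_nonneg c)
  · exact continuousOn_const.mul h.cont
  · intro s t hs hst ht x
    show c * z t x = P (t - s) (fun y => c * z s y) x +
      ∫ r in s..t, P (t - r) (fun y => V r y * (c * z r y)) x
    rw [h.duh s t hs hst ht x, Pool.Agent.H29.TF.P_const_mul (t - s) c (z s) x, mul_add,
      ← intervalIntegral.integral_const_mul]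
    congr 1
    refine intervalIntegral.integral_congr fun r _ => ?_
    show c * P (t - r) (fun y => V r y * z r y) x = P (t - r) (fun y => V r y * (c * z r y)) x
    rw [← Pool.Agent.H29.TF.P_const_mul (t - r) c (fun y => V r y * z r y) x]
    congr 1
    ext y
    ring

/-- translation of a potential -/
theorem pt_shift {K : ℝ} {V : ℝ → E N → ℝ} (h : Pt K V) (τ : ℝ) (ξ : E N) :
    Pt K (fun t x => V (τ + t) (ξ + x)) :=
  ⟨h.K0, fun _ _ => h.bdd _ _,
    h.meas.comp ((measurable_const_add τ).prodMap (measurable_const_add ξ))⟩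

/-! ### Constant potential -/

theorem gkn_const (κ : ℝ) (n : ℕ) (t : ℝ) (x : E N) (s : ℝ) (y : E N) (hst : s < t) :
    gkn (fun (_ : ℝ) (_ : E N) => κ) n t x s y =
      (κ * (t - s)) ^ n / (n.factorial : ℝ) * hk (t - s) (x - y) := by
  induction n generalizing t x with
  | zero => simp [gkn]
  | succ n ih =>
    have h1 : ∀ r ∈ Ioo s t, ∫ z, hk (t - r) (x - z) *
        ((fun (_ : ℝ) (_ : E N) => κ) r z * gkn (fun (_ : ℝ) (_ : E N) => κ) n r z s y) =
        κ * ((κ * (r - s)) ^ n / (n.factorial : ℝ)) * hk (t - s) (x - y) := by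
      intro r hr
      have h2 : ∀ z : E N, hk (t - r) (x - z) *
          ((fun (_ : ℝ) (_ : E N) => κ) r z * gkn (fun (_ : ℝ) (_ : E N) => κ) n r z s y) =
          κ * ((κ * (r - s)) ^ n / (n.factorial : ℝ)) *
            (hk (t - r) (x - z) * hk (r - s) (z - y)) := by
        intro z
        rw [ih r z hr.1]
        ring
      simp_rw [h2]
      rw [integral_const_mul, semigroup_hk (by linarith [hr.2]) (by linarith [hr.1])]
      congr 2
      ring
    have h3 : gkn (fun (_ : ℝ) (_ : E N) => κ) (n + 1) t x s y =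
        ∫ r in s..t, κ * ((κ * (r - s)) ^ n / (n.factorial : ℝ)) * hk (t - s) (x - y) := by
      show (∫ r in s..t, ∫ z, hk (t - r) (x - z) *
        ((fun (_ : ℝ) (_ : E N) => κ) r z * gkn (fun (_ : ℝ) (_ : E N) => κ) n r z s y)) = _
      refine intervalIntegral.integral_congr_ae ?_
      have hne : ∀ᵐ r : ℝ, r ≠ t := by simp [ae_iff]
      filter_upwards [hne] with r hr hr2
      rw [uIoc_of_le hst.le] at hr2
      exact h1 r ⟨hr2.1, lt_of_le_of_ne hr2.2 hr⟩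
    rw [h3]
    have h4 : ∀ r : ℝ, κ * ((κ * (r - s)) ^ n / (n.factorial : ℝ)) * hk (t - s) (x - y) =
        (κ ^ (n + 1) / (n.factorial : ℝ) * hk (t - s) (x - y)) * (r - s) ^ n := by
      intro r
      rw [mul_pow]
      ring
    simp_rw [h4]
    rw [intervalIntegral.integral_const_mul,
      intervalIntegral.integral_comp_sub_right (fun r => r ^ n) s, integral_pow, sub_self,
      Nat.factorial_succ, mul_pow]
    push_cast
    have : (n.factorial : ℝ) ≠ 0 := by positivity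
    field_simp
    simp

theorem gk_const (κ : ℝ) {t : ℝ} (x : E N) {s : ℝ} (y : E N) (hst : s < t) :
    gk (fun (_ : ℝ) (_ : E N) => κ) t x s y = Real.exp (κ * (t - s)) * hk (t - s) (x - y) := by
  unfold gk
  simp_rw [gkn_const κ _ t x s y hst]
  rw [tsum_mul_right, Real.exp_eq_exp_ℝ, NormedSpace.exp_eq_tsum_div]

/-! ### Directions -/

theorem ndir_mono {U : Set (E N)} {η η' : ℝ} {x e : E N} (h : NDir U η x e) (hη : η ≤ η') :
    NDir U η' x e := by
  obtain ⟨h1, ξ, e0, h2, h3⟩ := h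
  exact ⟨h1, ξ, e0, h2, h3.trans hη⟩

theorem ndir_near {U : Set (E N)} {η δ : ℝ} {x e e' : E N} (h : NDir U η x e) (h1 : ‖e'‖ = 1)
    (h2 : ‖e' - e‖ ≤ δ) : NDir U (η + δ) x e' := by
  obtain ⟨_, ξ, e0, h3, h4⟩ := h
  refine ⟨h1, ξ, e0, h3, ?_⟩
  calc ‖e' - e0‖ = ‖(e - e0) + (e' - e)‖ := by congr 1; abel
    _ ≤ ‖e - e0‖ + ‖e' - e‖ := norm_add_le _ _
    _ ≤ η + δ := add_le_add h4 h2

theorem atSeq_comp {U : Set (E N)} {cc : ℝ} {tn : ℕ → ℝ} {xn : ℕ → E N} {e : E N}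
    (h : AtSeq U cc tn xn e) {σ : ℕ → ℕ} (hσ : StrictMono σ) :
    AtSeq U cc (fun n => tn (σ n)) (fun n => xn (σ n)) e :=
  ⟨h.1.comp hσ.tendsto_atTop, fun η hη => hσ.tendsto_atTop.eventually (h.2 η hη)⟩

theorem limAt_comp {u : ℝ → E N → ℝ} {tn : ℕ → ℝ} {xn : ℕ → E N} {w : ℝ → E N → ℝ}
    (h : LimAt u tn xn w) {σ : ℕ → ℕ} (hσ : Tendsto σ atTop atTop) :
    LimAt u (fun n => tn (σ n)) (fun n => xn (σ n)) w := by
  intro R hR V hV
  exact hσ.eventually (h R hR V hV)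

theorem limAt_pt {u : ℝ → E N → ℝ} {tn : ℕ → ℝ} {xn : ℕ → E N} {w : ℝ → E N → ℝ}
    (h : LimAt u tn xn w) (t : ℝ) (x : E N) :
    Tendsto (fun n => u (tn n + t) (xn n + x)) atTop (𝓝 (w t x)) := by
  have h1 := h (max |t| ‖x‖ + 1) (by positivity)
  refine h1.tendsto_at (x := (t, x)) ⟨?_, ?_⟩
  · rw [mem_Icc, ← abs_le]
    exact (le_max_left _ _).trans (by linarith)
  · rw [mem_closedBall, dist_zero_right]
    exact (le_max_right _ _).trans (by linarith)

/-! ### Normalised sequences -/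

/-- shifted potential -/
noncomputable def Vq (f : ℝ → ℝ) (u : ℝ → E N → ℝ) (τ : ℝ) (ξ : E N) (t : ℝ) (x : E N) : ℝ :=
  pot f u (τ + t) (ξ + x)

/-- shifted and normalised derivative -/
noncomputable def zq (u : ℝ → E N → ℝ) (τ : ℝ) (ξ e : E N) (t : ℝ) (x : E N) : ℝ :=
  (dx u e τ ξ)⁻¹ * dx u e (τ + t) (ξ + x)

theorem zq_zero {u : ℝ → E N → ℝ} {τ : ℝ} {ξ e : E N} (h : 0 < -dx u e τ ξ) :
    zq u τ ξ e 0 0 = 1 := by
  unfold zq
  rw [add_zero, add_zero]
  exact inv_mul_cancel₀ (by intro h0; rw [h0] at h; simp at h)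

theorem abs_dx_le (u : ℝ → E N → ℝ) {e : E N} (he : ‖e‖ = 1) (t : ℝ) (x : E N) :
    |dx u e t x| ≤ gr u t x := by
  unfold dx gr
  have := (fderiv ℝ (u t) x).le_opNorm e
  rwa [he, mul_one, Real.norm_eq_abs] at this

theorem lin_zq (hLINU : T_LINU) {f : ℝ → ℝ} {K : ℝ} {U : Set (E N)} {u : ℝ → E N → ℝ}
    (hS : Stg f K U u) {τ : ℝ} (hτ : 1 < τ) (ξ e : E N) :
    LinD (Vq f u τ ξ) (1 - τ) 0 (zq u τ ξ e) := by
  have h1 := ((hLINU N f K U u hS.reac hS.lip hS.sol).2.2.1 1 τ one_pos hτ).1 e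
  have h2 := lin_smul (lin_shift h1 τ ξ) (dx u e τ ξ)⁻¹
  rw [sub_self] at h2
  exact h2

theorem pt_Vq (hLINU : T_LINU) {f : ℝ → ℝ} {K : ℝ} {U : Set (E N)} {u : ℝ → E N → ℝ}
    (hS : Stg f K U u) (τ : ℝ) (ξ : E N) : Pt K (Vq f u τ ξ) :=
  pt_shift (hLINU N f K U u hS.reac hS.lip hS.sol).1 τ ξ

theorem gk_nn (hKER : T_KER) {K : ℝ} {V : ℝ → E N → ℝ} (hV : Pt K V) {s t : ℝ} (hst : s < t)
    (x y : E N) : 0 ≤ gk V t x s y :=
  (mul_nonneg (Real.exp_nonneg _) (hk_nonneg (by linarith) _)).trans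
    ((hKER N K V hV).2.1 s t hst x y).1

theorem gk_meas (hKER : T_KER) {K : ℝ} {V : ℝ → E N → ℝ} (hV : Pt K V) {s t : ℝ} (hst : s < t)
    (x : E N) : Measurable (fun y => gk V t x s y) :=
  ((hKER N K V hV).1 s t hst).comp (measurable_const.prodMk measurable_id)

theorem gk_int (hKER : T_KER) {K : ℝ} {V : ℝ → E N → ℝ} (hV : Pt K V) {s t : ℝ} (hst : s < t)
    (x : E N) {g : E N → ℝ} (hg : Measurable g) {M : ℝ} (hM : ∀ y, |g y| ≤ M) :
    Integrable (fun y => gk V t x s y * g y) := by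
  have h1 : Integrable (fun y => gk V t x s y) := by
    refine ((integrable_hk_sub (by linarith : 0 < t - s) x).const_mul
      (Real.exp (K * (t - s)))).mono' (gk_meas hKER hV hst x).aestronglyMeasurable
      (Eventually.of_forall fun y => ?_)
    rw [Real.norm_of_nonneg (gk_nn hKER hV hst x y)]
    exact ((hKER N K V hV).2.1 s t hst x y).2
  exact h1.mul_bdd (c := M) hg.aestronglyMeasurable (Eventually.of_forall hM)

theorem slice_cont {V z : ℝ → E N → ℝ} {a b : ℝ} (h : LinD V a b z) {s : ℝ} (h1 : a < s)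
    (h2 : s ≤ b) : Continuous (z s) := by
  rw [← continuousOn_univ]
  refine h.cont.comp (f := fun y : E N => (s, y)) (by fun_prop) ?_
  intro y _
  exact ⟨⟨h1, h2⟩, mem_univ _⟩

/-- the standing facts on a sequence of points -/
structure Sq (f : ℝ → ℝ) (K cc C0 C9 η0 : ℝ) (U : Set (E N)) (u : ℝ → E N → ℝ) (tn : ℕ → ℝ)
    (xn en : ℕ → E N) (e : E N) : Prop where
  stg : Stg f K U u
  cc0 : 0 < cc
  frm : Frm U u cc C0 C9 η0
  lim : Tendsto tn atTop atTop
  t3 : ∀ n, 3 ≤ tn n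
  dir : ∀ η > 0, ∀ᶠ n in atTop, NDir U η (xn n) (en n)
  seq : AtSeq U cc tn xn e
  unit : ∀ n, ‖en n‖ = 1
  unit' : ‖e‖ = 1
  cv : Tendsto en atTop (𝓝 e)
  pos : ∀ n, 0 < -dx u (en n) (tn n) (xn n)

theorem Sq.comp {f : ℝ → ℝ} {K cc C0 C9 η0 : ℝ} {U : Set (E N)} {u : ℝ → E N → ℝ} {tn : ℕ → ℝ}
    {xn en : ℕ → E N} {e : E N} (h : Sq f K cc C0 C9 η0 U u tn xn en e) {σ : ℕ → ℕ}
    (hσ : StrictMono σ) : Sq f K cc C0 C9 η0 U u (fun n => tn (σ n)) (fun n => xn (σ n))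
      (fun n => en (σ n)) e :=
  ⟨h.stg, h.cc0, h.frm, h.lim.comp hσ.tendsto_atTop, fun _ => h.t3 _,
    fun η hη => hσ.tendsto_atTop.eventually (h.dir η hη), atSeq_comp h.seq hσ, fun _ => h.unit _,
    h.unit', h.cv.comp hσ.tendsto_atTop, fun _ => h.pos _⟩

/-- lower bound of the normalising factor -/
theorem Sq.low {f : ℝ → ℝ} {K cc C0 C9 η0 : ℝ} {U : Set (E N)} {u : ℝ → E N → ℝ} {tn : ℕ → ℝ}
    {xn en : ℕ → E N} {e : E N} (h : Sq f K cc C0 C9 η0 U u tn xn en e) :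
    ∀ᶠ n in atTop, Real.exp (-(tn n / 2)) ≤ -dx u (en n) (tn n) (xn n) := by
  obtain ⟨T, hT, hlow⟩ := h.frm.low (1 / 4) (by norm_num)
  have hC9 : 0 < C9 := by linarith [h.frm.hC9]
  have hη : 0 < min η0 (1 / (4 * C9)) := lt_min h.frm.hη0 (by positivity)
  filter_upwards [h.lim.eventually_ge_atTop T, h.dir η0 h.frm.hη0, h.seq.2 _ hη] with n h1 h2 h3
  have ht : 0 < tn n := by linarith [h.t3 n]
  have h4 : |infDist (xn n) U - cc * tn n| ≤ η0 * tn n :=
    h3.2.trans (mul_le_mul_of_nonneg_right (min_le_left _ _) ht.le)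
  have h5 : |infDist (xn n) U - cc * tn n| ≤ 1 / (4 * C9) * tn n :=
    h3.2.trans (mul_le_mul_of_nonneg_right (min_le_right _ _) ht.le)
  refine le_trans (Real.exp_le_exp.2 ?_) (hlow (tn n) h1 (xn n) (en n) h2 h4)
  have h6 : C9 * |infDist (xn n) U - cc * tn n| ≤ C9 * (1 / (4 * C9) * tn n) :=
    mul_le_mul_of_nonneg_left h5 hC9.le
  have h7 : C9 * (1 / (4 * C9) * tn n) = tn n / 4 := by field_simp
  linarith

/-- positivity in boxes -/
theorem Sq.box (hUPB : T_UPB) {f : ℝ → ℝ} {K cc C0 C9 η0 : ℝ} {U : Set (E N)}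
    {u : ℝ → E N → ℝ} {tn : ℕ → ℝ}
    {xn en : ℕ → E N} {e : E N} (h : Sq f K cc C0 C9 η0 U u tn xn en e) :
    ∃ ρ > 0, ρ ≤ 1 / 2 ∧ ∀ᶠ n in atTop, ∀ s ∈ Icc ((1 - ρ) * tn n) (tn n), ∀ y,
      dist y (xn n) ≤ ρ * tn n → 0 < -dx u (en n) s y := by
  have h1 : AtR U cc (fun _ t x e => 0 < -dx u e t x) := by
    intro ε _
    obtain ⟨T, hT, hp⟩ := h.frm.pos
    exact ⟨η0, h.frm.hη0, T, hT, fun t ht x e h2 h3 => (hp t ht x e h2 h3).1⟩
  obtain ⟨ρ, hρ, T, hT, h2⟩ := hUPB N U cc _ h.stg.condC h.stg.ne h.cc0 h1 1 one_pos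
  refine ⟨min ρ (1 / 2), lt_min hρ (by norm_num), min_le_right _ _, ?_⟩
  filter_upwards [h.lim.eventually_ge_atTop T, h.dir ρ hρ, h.seq.2 ρ hρ] with n k1 k2 k3
  intro s hs y hy
  have ht : 0 < tn n := by linarith [h.t3 n]
  have k4 : min ρ (1 / 2) ≤ ρ := min_le_left _ _
  refine h2 (tn n) k1 (xn n) (en n) k2 k3.2 s ⟨?_, hs.2⟩ y ?_
  · refine le_trans ?_ hs.1
    exact mul_le_mul_of_nonneg_right (by linarith) ht.le
  · exact hy.trans (mul_le_mul_of_nonneg_right k4 ht.le)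

/-- the normalised mass tends to one -/
theorem nrm (hKREP : T_KREP) (hNSUP : T_NSUP) (hUPB : T_UPB) (hLINU : T_LINU) (hKER : T_KER)
    {f : ℝ → ℝ} {K cc C0 C9 η0 : ℝ} {U : Set (E N)} {u : ℝ → E N → ℝ} {tn : ℕ → ℝ}
    {xn en : ℕ → E N} {e : E N} (h : Sq f K cc C0 C9 η0 U u tn xn en e) :
    Tendsto (fun n => ∫ y, gk (Vq f u (tn n) (xn n)) 0 0 (0 - 1) y *
      max (zq u (tn n) (xn n) (en n) (0 - 1) y) 0) atTop (𝓝 1) ∧
    ∀ n, 1 ≤ ∫ y, gk (Vq f u (tn n) (xn n)) 0 0 (0 - 1) y *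
      max (zq u (tn n) (xn n) (en n) (0 - 1) y) 0 := by
  have hK := h.stg.lip.K0
  obtain ⟨C, hC⟩ := (hLINU N f K U u h.stg.reac h.stg.lip h.stg.sol).2.2.2
  obtain ⟨ρ, hρ, hρ2, hbox⟩ := h.box hUPB
  set M : ℝ := |C| + 1 with hM
  have hM0 : 0 < M := by positivity
  set δ : ℝ := min 1 (ρ ^ 2 / (16 * (K + 2))) with hδ
  have hδ0 : 0 < δ := lt_min one_pos (by positivity)
  have hδ1 : δ ≤ 1 := min_le_left _ _
  have hδ2 : δ ≤ ρ ^ 2 / (16 * (K + 2)) := min_le_right _ _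
  have hδ3 : 16 * δ * (K * δ + 1 + 1) ≤ ρ ^ 2 := by
    have k1 : K * δ ≤ K := by nlinarith
    have k2 : δ * (16 * (K + 2)) ≤ ρ ^ 2 := by
      rwa [le_div_iff₀ (by positivity)] at hδ2
    nlinarith
  obtain ⟨T, hT, hN⟩ := hNSUP N K M ρ δ 1 hK hM0 hρ hδ0 one_pos hδ3
  -- the negative part
  let G : ℕ → E N → ℝ := fun n y => max (dx u (en n) (tn n + (0 - 1)) (xn n + y)) 0
  have hGM : ∀ n y, |G n y| ≤ M := by
    intro n y
    have k1 : 1 ≤ tn n + (0 - 1) := by linarith [h.t3 n]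
    have k2 := (abs_dx_le u (h.unit n) (tn n + (0 - 1)) (xn n + y)).trans (hC _ k1 _).1
    have k3 : |G n y| ≤ |dx u (en n) (tn n + (0 - 1)) (xn n + y)| := by
      simp only [G]
      rw [abs_of_nonneg (le_max_right _ _)]
      exact max_le (le_abs_self _) (abs_nonneg _)
    calc |G n y| ≤ C := k3.trans k2
      _ ≤ M := by rw [hM]; linarith [le_abs_self C]
  have hlin : ∀ n, LinD (Vq f u (tn n) (xn n)) (1 - tn n) 0 (zq u (tn n) (xn n) (en n)) :=
    fun n => lin_zq hLINU h.stg (by linarith [h.t3 n]) _ _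
  have hpt : ∀ n, Pt K (Vq f u (tn n) (xn n)) := fun n => pt_Vq hLINU h.stg _ _
  have hzc : ∀ n, Continuous (zq u (tn n) (xn n) (en n) (0 - 1)) := fun n =>
    slice_cont (hlin n) (by linarith [h.t3 n]) (by norm_num)
  have hne : ∀ n, dx u (en n) (tn n) (xn n) ≠ 0 := by
    intro n h0
    have := h.pos n
    rw [h0] at this
    simp at this
  have hGz : ∀ n y, max (-zq u (tn n) (xn n) (en n) (0 - 1) y) 0 =
      (-dx u (en n) (tn n) (xn n))⁻¹ * G n y := by
    intro n y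
    have k1 : 0 < (-dx u (en n) (tn n) (xn n))⁻¹ := inv_pos.2 (h.pos n)
    simp only [G, zq]
    rw [mul_max_of_nonneg _ _ k1.le, mul_zero, inv_neg, neg_mul]
  have hGm : ∀ n, Measurable (G n) := by
    intro n
    have k2 : G n = fun y => (-dx u (en n) (tn n) (xn n)) *
        max (-zq u (tn n) (xn n) (en n) (0 - 1) y) 0 := by
      ext y
      rw [hGz n y, ← mul_assoc, mul_inv_cancel₀ (h.pos n).ne', one_mul]
    rw [k2]
    exact (((hzc n).measurable.neg.max measurable_const).const_mul _)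
  have h01 : (0 : ℝ) - 1 < 0 := by norm_num
  have hsplit : ∀ n, ∫ y, gk (Vq f u (tn n) (xn n)) 0 0 (0 - 1) y *
      max (zq u (tn n) (xn n) (en n) (0 - 1) y) 0 =
      1 + (-dx u (en n) (tn n) (xn n))⁻¹ *
        ∫ y, gk (Vq f u (tn n) (xn n)) 0 0 (0 - 1) y * G n y := by
    intro n
    obtain ⟨Mz, hMz⟩ := (hlin n).bdd
    have i1 := gk_int hKER (hpt n) h01 (0 : E N) (hzc n).measurable
      (fun y => hMz (0 - 1) ⟨by linarith [h.t3 n], by norm_num⟩ y)
    have i2 := gk_int hKER (hpt n) h01 (0 : E N) (hGm n) (hGM n)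
    have k1 := hKREP N K (1 - tn n) 0 _ _ (hpt n) (hlin n) (0 - 1) 0 (by linarith [h.t3 n]) h01
      le_rfl 0
    rw [zq_zero (h.pos n)] at k1
    refine Eq.trans ?_ (congrArg (fun a => a + (-dx u (en n) (tn n) (xn n))⁻¹ *
        ∫ y, gk (Vq f u (tn n) (xn n)) 0 0 (0 - 1) y * G n y) k1.symm)
    rw [← integral_const_mul, ← integral_add i1 (i2.const_mul _)]
    refine integral_congr_ae (Eventually.of_forall fun y => ?_)
    have k2 : max (zq u (tn n) (xn n) (en n) (0 - 1) y) 0 = zq u (tn n) (xn n) (en n) (0 - 1) y +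
        max (-zq u (tn n) (xn n) (en n) (0 - 1) y) 0 := by
      rcases le_total 0 (zq u (tn n) (xn n) (en n) (0 - 1) y) with h | h
      · rw [max_eq_left h, max_eq_right (by linarith)]
        ring
      · rw [max_eq_right h, max_eq_left (by linarith)]
        ring
    show gk (Vq f u (tn n) (xn n)) 0 0 (0 - 1) y * max (zq u (tn n) (xn n) (en n) (0 - 1) y) 0 =
      gk (Vq f u (tn n) (xn n)) 0 0 (0 - 1) y * zq u (tn n) (xn n) (en n) (0 - 1) y +
        (-dx u (en n) (tn n) (xn n))⁻¹ * (gk (Vq f u (tn n) (xn n)) 0 0 (0 - 1) y * G n y)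
    rw [k2, hGz n y]
    ring
  have hGi0 : ∀ n, 0 ≤ ∫ y, gk (Vq f u (tn n) (xn n)) 0 0 (0 - 1) y * G n y := fun n =>
    integral_nonneg fun y => mul_nonneg (gk_nn hKER (hpt n) h01 _ _) (le_max_right _ _)
  refine ⟨?_, fun n => ?_⟩
  swap
  · rw [hsplit n]
    have := mul_nonneg (inv_pos.2 (h.pos n)).le (hGi0 n)
    linarith
  simp_rw [hsplit]
  have hz : Tendsto (fun n => (-dx u (en n) (tn n) (xn n))⁻¹ *
      ∫ y, gk (Vq f u (tn n) (xn n)) 0 0 (0 - 1) y * G n y) atTop (𝓝 0) := by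
    have hexp : Tendsto (fun n => Real.exp (-(tn n / 2))) atTop (𝓝 0) :=
      Real.tendsto_exp_neg_atTop_nhds_zero.comp (h.lim.atTop_div_const (by norm_num))
    refine squeeze_zero' (Eventually.of_forall fun n =>
      mul_nonneg (inv_pos.2 (h.pos n)).le (hGi0 n)) ?_ hexp
    filter_upwards [h.lim.eventually_ge_atTop T, h.lim.eventually_ge_atTop (1 / δ),
      h.lim.eventually_ge_atTop (1 / ρ), h.low, hbox] with n k1 k2 k3 k4 k5
    have k6 := hN (tn n) k1 (Vq f u (tn n) (xn n)) (G n) 0 1 0 (hpt n) (hGm n) (hGM n) one_pos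
      (by rwa [div_le_iff₀ hδ0, mul_comm] at k2) ?_
    swap
    · intro y hy
      simp only [G]
      refine max_eq_right ?_
      have k7 := k5 (tn n + (0 - 1)) ⟨?_, by linarith⟩ (xn n + y) ?_
      · linarith
      · rw [div_le_iff₀ hρ] at k3
        nlinarith
      · rw [dist_eq_norm, add_sub_cancel_left]
        rwa [dist_zero_right] at hy
    have k8 : ∫ y, gk (Vq f u (tn n) (xn n)) 0 0 (0 - 1) y * G n y ≤ Real.exp (-(1 * tn n)) :=
      (le_abs_self _).trans k6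
    have k9 : (-dx u (en n) (tn n) (xn n))⁻¹ ≤ Real.exp (tn n / 2) := by
      rw [inv_le_comm₀ (h.pos n) (Real.exp_pos _), ← Real.exp_neg]
      exact k4
    calc (-dx u (en n) (tn n) (xn n))⁻¹ * ∫ y, gk (Vq f u (tn n) (xn n)) 0 0 (0 - 1) y * G n y
        ≤ Real.exp (tn n / 2) * Real.exp (-(1 * tn n)) :=
          mul_le_mul k9 k8 (hGi0 n) (Real.exp_nonneg _)
      _ = Real.exp (-(tn n / 2)) := by
          rw [← Real.exp_add]
          congr 1
          ring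
  simpa using hz.const_add 1

end Pool.Agent.H95.RF.LIR
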